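import Pool.Agent.W740.Nil.Haar

set_option autoImplicit false

open MeasureTheory Filter Topology Set
open scoped ContDiff

namespace Pool.Agent.W740.Nil

open Heis

/-- The maximal torus factor. -/
abbrev T2 : Type := UnitAddCircle × UnitAddCircle

theorem coe_int (n : ℤ) : ((n : ℝ) : UnitAddCircle) = 0 := by
  rw [AddCircle.coe_eq_zero_iff]
  exact ⟨n, by simp⟩

/-- The projection to the torus. -/
def prj : Nilmanifold → T2 :=
  Quotient.lift (fun g : Heis => (((g.x : ℝ) : UnitAddCircle), ((g.y : ℝ) : UnitAddCircle))) (by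
    rintro _ g ⟨γ, rfl⟩
    obtain ⟨a, b, c, rfl⟩ := lat_surj γ
    have e1 : (lat a b c • g).x = a + g.x := rfl
    have e2 : (lat a b c • g).y = b + g.y := rfl
    simp only [e1, e2, AddCircle.coe_add, coe_int, zero_add])

@[simp] theorem prj_toNil (g : Heis) :
    prj (toNil g) = (((g.x : ℝ) : UnitAddCircle), ((g.y : ℝ) : UnitAddCircle)) := rfl

theorem continuous_prj : Continuous prj := by
  rw [isOpenQuotientMap_toNil.isQuotientMap.continuous_iff]
  exact ((AddCircle.continuous_mk' 1).comp continuous_x).prodMk
    ((AddCircle.continuous_mk' 1).comp continuous_y)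

theorem prj_surj : Function.Surjective prj := by
  rintro ⟨a, b⟩
  obtain ⟨x, rfl⟩ := QuotientAddGroup.mk_surjective a
  obtain ⟨y, rfl⟩ := QuotientAddGroup.mk_surjective b
  exact ⟨toNil ⟨x, y, 0⟩, rfl⟩

theorem prj_rtr (h : Heis) (p : Nilmanifold) :
    prj (rtr h p) = prj p + (((h.x : ℝ) : UnitAddCircle), ((h.y : ℝ) : UnitAddCircle)) := by
  obtain ⟨g, rfl⟩ := toNil_surj p
  simp

/-- A finite measure on the torus invariant under `(t, θ t)` is invariant under all
translations. -/
theorem base_inv (ρ : Measure T2) [IsProbabilityMeasure ρ] {θ : ℝ} (hθ : Irrational θ)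
    (h : ∀ t : ℝ, MeasurePreserving (fun p : T2 => p + ((t : UnitAddCircle),
      ((t * θ : ℝ) : UnitAddCircle))) ρ ρ) (v : T2) :
    MeasurePreserving (fun p : T2 => p + v) ρ ρ := by
  -- it is enough to test on continuous functions
  have test : ∀ v : T2, (∀ f : BoundedContinuousFunction T2 ℝ, ∫ x, f (x + v) ∂ρ = ∫ x, f x ∂ρ) →
      MeasurePreserving (fun p : T2 => p + v) ρ ρ := by
    intro v hv
    have hm : Measurable (fun p : T2 => p + v) := measurable_add_const v
    refine ⟨hm, ?_⟩
    have : IsProbabilityMeasure (Measure.map (fun p : T2 => p + v) ρ) :=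
      Measure.isProbabilityMeasure_map hm.aemeasurable
    apply ext_of_forall_integral_eq_of_IsFiniteMeasure
    intro f
    rw [integral_map hm.aemeasurable f.continuous.measurable.aestronglyMeasurable]
    exact hv f
  have inv_int : ∀ v : T2, MeasurePreserving (fun p : T2 => p + v) ρ ρ →
      ∀ f : BoundedContinuousFunction T2 ℝ, ∫ x, f (x + v) ∂ρ = ∫ x, f x ∂ρ := by
    intro v hv f
    conv_rhs => rw [← hv.map_eq]
    rw [integral_map hv.measurable.aemeasurable f.continuous.measurable.aestronglyMeasurable]
  -- invariance under `(0, b)`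
  have h0 : ∀ b : UnitAddCircle, MeasurePreserving (fun p : T2 => p + ((0 : UnitAddCircle), b)) ρ ρ := by
    intro b
    apply test
    intro f
    have hcont : Continuous (fun b : UnitAddCircle => ∫ x, f (x + ((0 : UnitAddCircle), b)) ∂ρ) := by
      refine continuous_of_dominated (bound := fun _ => ‖f‖) ?_ ?_ (integrable_const _) ?_
      · intro b
        exact (f.continuous.comp (continuous_add_const _)).measurable.aestronglyMeasurable
      · intro b
        exact Eventually.of_forall fun x => f.norm_coe_le_norm _
      · refine Eventually.of_forall fun x => ?_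
        fun_prop
    have hcl : IsClosed {b : UnitAddCircle | ∫ x, f (x + ((0 : UnitAddCircle), b)) ∂ρ =
        ∫ x, f x ∂ρ} := isClosed_eq hcont continuous_const
    have hd : DenseRange (fun n : ℤ => n • ((θ : ℝ) : UnitAddCircle)) :=
      AddCircle.denseRange_zsmul_coe_iff.mpr (by simpa using hθ)
    have hsub : range (fun n : ℤ => n • ((θ : ℝ) : UnitAddCircle)) ⊆
        {b : UnitAddCircle | ∫ x, f (x + ((0 : UnitAddCircle), b)) ∂ρ = ∫ x, f x ∂ρ} := by
      rintro _ ⟨n, rfl⟩
      have h1 := inv_int _ (h n) f
      rw [coe_int] at h1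
      have e : (((n : ℝ) * θ : ℝ) : UnitAddCircle) = n • ((θ : ℝ) : UnitAddCircle) := by
        rw [← zsmul_eq_mul, AddCircle.coe_zsmul]
      rw [e] at h1
      exact h1
    have := hcl.closure_subset_iff.mpr hsub
    rw [hd.closure_range] at this
    exact this (mem_univ b)
  obtain ⟨a, b⟩ := v
  obtain ⟨t, rfl⟩ := QuotientAddGroup.mk_surjective a
  have h1 := (h0 (b - ((t * θ : ℝ) : UnitAddCircle))).comp (h t)
  have e : ((fun p : T2 => p + ((0 : UnitAddCircle), b - ((t * θ : ℝ) : UnitAddCircle))) ∘
      fun p : T2 => p + ((t : UnitAddCircle), ((t * θ : ℝ) : UnitAddCircle))) =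
      fun p : T2 => p + ((QuotientAddGroup.mk t : UnitAddCircle), b) := by
    funext p
    show p + _ + _ = _
    rw [add_assoc]
    congr 1
    ext
    · simp
    · simp
  rw [e] at h1
  exact h1

instance : IsProbabilityMeasure (volume : Measure UnitAddCircle) := ⟨UnitAddCircle.measure_univ⟩

instance : IsProbabilityMeasure (volume : Measure T2) := by
  rw [Measure.volume_eq_prod]
  infer_instance

/-- Uniqueness of the translation invariant probability measure. -/
theorem eq_volume_of_inv (ρ : Measure T2) [IsProbabilityMeasure ρ]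
    (h : ∀ v : T2, MeasurePreserving (fun p : T2 => p + v) ρ ρ) : ρ = volume := by
  have : ρ.IsAddLeftInvariant := ⟨fun v => by
    have := (h v).map_eq
    simpa only [add_comm] using this⟩
  have : (volume : Measure T2).IsAddHaarMeasure := by
    rw [Measure.volume_eq_prod]
    exact inferInstance
  have : ρ.IsAddHaarMeasure := by
    refine Measure.isAddHaarMeasure_of_isCompact_nonempty_interior ρ univ isCompact_univ ?_ ?_ ?_
    · simp
    · simp
    · simp
  exact Measure.isAddHaarMeasure_eq_of_isProbabilityMeasure _ _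

/-- the image of a flow-invariant measure is Haar measure -/
theorem map_prj {θ : ℝ} (hθ : Irrational θ) (ν : Measure Nilmanifold) [IsProbabilityMeasure ν]
    (hν : ∀ t, MeasurePreserving (nilflow (1, θ, 0) t) ν ν) : Measure.map prj ν = volume := by
  have : IsProbabilityMeasure (Measure.map prj ν) :=
    Measure.isProbabilityMeasure_map continuous_prj.measurable.aemeasurable
  refine eq_volume_of_inv _ (base_inv _ hθ fun t => ⟨measurable_add_const _, ?_⟩)
  rw [Measure.map_map (measurable_add_const _) continuous_prj.measurable]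
  conv_rhs => rw [← (hν t).map_eq]
  rw [Measure.map_map continuous_prj.measurable (hν t).measurable]
  congr 1
  funext p
  show prj p + _ = prj (rtr _ p)
  rw [prj_rtr]
  simp [expX]

end Pool.Agent.W740.Nil
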