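import Mathlib

set_option autoImplicit false

open MeasureTheory Filter Topology Set
open scoped ContDiff

namespace Pool.Agent.W740.Nil

/-- The Heisenberg group: the point `(x, y, z)` stands for the upper triangular unipotent matrix
with rows `(1, x, z)`, `(0, 1, y)`, `(0, 0, 1)`. -/
@[ext] structure Heis where
  x : ℝ
  y : ℝ
  z : ℝ

namespace Heis

instance : Mul Heis := ⟨fun g h => ⟨g.x + h.x, g.y + h.y, g.z + h.z + g.x * h.y⟩⟩
instance : One Heis := ⟨⟨0, 0, 0⟩⟩
instance : Inv Heis := ⟨fun g => ⟨-g.x, -g.y, -g.z + g.x * g.y⟩⟩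

@[simp] theorem mul_x (g h : Heis) : (g * h).x = g.x + h.x := rfl
@[simp] theorem mul_y (g h : Heis) : (g * h).y = g.y + h.y := rfl
@[simp] theorem mul_z (g h : Heis) : (g * h).z = g.z + h.z + g.x * h.y := rfl
@[simp] theorem one_x : (1 : Heis).x = 0 := rfl
@[simp] theorem one_y : (1 : Heis).y = 0 := rfl
@[simp] theorem one_z : (1 : Heis).z = 0 := rfl
@[simp] theorem inv_x (g : Heis) : (g⁻¹).x = -g.x := rfl
@[simp] theorem inv_y (g : Heis) : (g⁻¹).y = -g.y := rfl
@[simp] theorem inv_z (g : Heis) : (g⁻¹).z = -g.z + g.x * g.y := rfl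

/-- The group structure of the Heisenberg group (multiplication of matrices). -/
instance : Group Heis := Group.ofLeftAxioms
  (fun a b c => by ext <;> simp <;> ring)
  (fun a => by ext <;> simp)
  (fun a => by ext <;> simp)

/-- The topology of `ℝ³`. -/
instance : TopologicalSpace Heis :=
  TopologicalSpace.induced (fun g => (g.x, g.y, g.z)) (inferInstance : TopologicalSpace (ℝ × ℝ × ℝ))

end Heis

/-- The lattice `Γ` of integer points of the Heisenberg group. -/
def lattice : Subgroup Heis where
  carrier := {g | ∃ a b c : ℤ, g = ⟨a, b, c⟩}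
  mul_mem' := by
    rintro _ _ ⟨a, b, c, rfl⟩ ⟨a', b', c', rfl⟩
    refine ⟨a + a', b + b', c + c' + a * b', ?_⟩
    ext <;> simp
  one_mem' := ⟨0, 0, 0, by ext <;> simp⟩
  inv_mem' := by
    rintro _ ⟨a, b, c, rfl⟩
    refine ⟨-a, -b, -c + a * b, ?_⟩
    ext <;> simp

/-- The compact nilmanifold `Γ \ G`: the quotient of the Heisenberg group `G` by the left
multiplications by the elements of the lattice `Γ`, with the quotient topology. -/
def Nilmanifold : Type := Quotient (MulAction.orbitRel lattice Heis)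

instance : TopologicalSpace Nilmanifold :=
  inferInstanceAs (TopologicalSpace (Quotient (MulAction.orbitRel lattice Heis)))

instance : MeasurableSpace Nilmanifold := borel _

instance : BorelSpace Nilmanifold := ⟨rfl⟩

/-- The projection `g ↦ Γ g`. -/
def toNil (g : Heis) : Nilmanifold := Quotient.mk (MulAction.orbitRel lattice Heis) g

/-- The right translation `Γ g ↦ Γ g h` by an element `h` of the Heisenberg group. -/
def rtr (h : Heis) : Nilmanifold → Nilmanifold :=
  Quotient.map (fun g => g * h) (by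
    rintro _ g ⟨γ, rfl⟩
    exact ⟨γ, by simp [Subgroup.smul_def, mul_assoc]⟩)

/-- `μ` is the normalised Haar measure of the nilmanifold: a Borel probability measure invariant
under all right translations. -/
def IsHaarProb (μ : Measure Nilmanifold) : Prop :=
  IsProbabilityMeasure μ ∧ ∀ h : Heis, MeasurePreserving (rtr h) μ μ

/-- A function on the nilmanifold is smooth if its lift to `G = ℝ³` is of class `C^∞`. -/
def IsSmooth (f : Nilmanifold → ℝ) : Prop :=
  ContDiff ℝ ∞ (fun p : ℝ × ℝ × ℝ => f (toNil ⟨p.1, p.2.1, p.2.2⟩))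

/-- `exp (t X)` for the element `X = (a, b, c)` of the Lie algebra, that is, for the strictly upper
triangular matrix with rows `(0, a, c)`, `(0, 0, b)`, `(0, 0, 0)`. -/
noncomputable def expX (X : ℝ × ℝ × ℝ) (t : ℝ) : Heis :=
  ⟨t * X.1, t * X.2.1, t * X.2.2 + t ^ 2 * (X.1 * X.2.1) / 2⟩

/-- The nilflow `φ_t (Γ g) = Γ g exp (t X)`. -/
noncomputable def nilflow (X : ℝ × ℝ × ℝ) (t : ℝ) : Nilmanifold → Nilmanifold := rtr (expX X t)

/-- `X` is not central, so that the nilflow is parabolic. -/
def IsParabolic (X : ℝ × ℝ × ℝ) : Prop := ∃ (t : ℝ) (g : Heis), expX X t * g ≠ g * expX X t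

section flows

variable {M : Type*} [MeasurableSpace M]

/-- `μ` is the only Borel probability measure invariant under the flow `φ`. -/
def IsUniquelyErgodic (φ : ℝ → M → M) (μ : Measure M) : Prop :=
  (∀ t, MeasurePreserving (φ t) μ μ) ∧
    ∀ ν : Measure M, IsProbabilityMeasure ν → (∀ t, MeasurePreserving (φ t) ν ν) → ν = μ

/-- The time-change given by `α` is measurably trivial: `α` is measurably cohomologous to a
constant. -/
def MeasurablyTrivial (φ : ℝ → M → M) (μ : Measure M) (α : M → ℝ) : Prop :=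
  ∃ (c : ℝ) (u : M → ℝ), Measurable u ∧
    ∀ t, ∀ᵐ x ∂μ, u (φ t x) - u x = ∫ s in (0 : ℝ)..t, (α (φ s x) - c)

/-- `ψ` is the time-change of the flow `φ` (generated by the vector field `X`) given by the
function `α`, that is, the flow generated by `X / α`: `ψ_t x = φ_r x`, where the time `r` is such
that the integral of `α` along the orbit of `x` from time `0` to time `r` is `t`. -/
def IsTimeChange (φ : ℝ → M → M) (α : M → ℝ) (ψ : ℝ → M → M) : Prop :=
  ∀ t x, ∃ r : ℝ, ψ t x = φ r x ∧ ∫ s in (0 : ℝ)..r, α (φ s x) = t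

/-- The probability measure proportional to `α dμ`. -/
noncomputable def tcMeasure (μ : Measure M) (α : M → ℝ) : Measure M :=
  (∫⁻ x, ENNReal.ofReal (α x) ∂μ)⁻¹ • μ.withDensity (fun x => ENNReal.ofReal (α x))

/-- Mixing of the flow `ψ` for the probability measure `ν`. -/
def IsMixing (ψ : ℝ → M → M) (ν : Measure M) : Prop :=
  ∀ A B : Set M, MeasurableSet A → MeasurableSet B →
    Tendsto (fun t : ℝ => ν.real (ψ t '' A ∩ B)) atTop (𝓝 (ν.real A * ν.real B))

/-- Weak mixing of the flow `ψ` for the probability measure `ν`. -/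
def IsWeaklyMixing (ψ : ℝ → M → M) (ν : Measure M) : Prop :=
  ∀ A B : Set M, MeasurableSet A → MeasurableSet B →
    Tendsto (fun t : ℝ => (1 / t) *
      ∫ s in (0 : ℝ)..t, |ν.real (ψ s '' A ∩ B) - ν.real A * ν.real B|) atTop (𝓝 0)

end flows

end Pool.Agent.W740.Nil
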