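import Pool.Agent.W740.Nil.Nontriv

set_option autoImplicit false

open MeasureTheory Filter Topology Set
open scoped ContDiff

namespace Pool.Agent.W740.Nil

open Heis

namespace Data

variable (D : Data)

/-- partial sums on the circle -/
noncomputable def esum (K : ℕ) (p : Nilmanifold) : UnitAddCircle :=
  ∑ k ∈ Finset.range K, ((UC k (D.ch k p) : ℝ) : UnitAddCircle)

/-- the set where the partial sums converge -/
def good : Set Nilmanifold := {p | ∃ c, Tendsto (fun K => D.esum K p) atTop (𝓝 c)}

/-- the eigenfunction -/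
noncomputable def ef (p : Nilmanifold) : UnitAddCircle :=
  (prj p).1 + limUnder atTop (fun K => D.esum K p)

theorem continuous_esum (K : ℕ) : Continuous (D.esum K) := by
  unfold esum
  refine continuous_finsetSum _ fun k _ => ?_
  exact (AddCircle.continuous_mk' 1).comp ((continuous_UC k).comp (D.continuous_ch k))

theorem measurableSet_good : MeasurableSet D.good :=
  StronglyMeasurable.measurableSet_exists_tendsto fun K => (D.continuous_esum K).stronglyMeasurable

theorem measurable_ef : Measurable D.ef := by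
  unfold ef
  refine Measurable.add ?_ ?_
  · exact measurable_fst.comp continuous_prj.measurable
  · exact (StronglyMeasurable.limUnder fun K => (D.continuous_esum K).stronglyMeasurable).measurable

theorem good_fl {p : Nilmanifold} (hp : p ∈ D.good) (r : ℝ) :
    D.fl r p ∈ D.good ∧ D.ef (D.fl r p) = D.ef p + ((D.tau p r : ℝ) : UnitAddCircle) := by
  obtain ⟨c, hc⟩ := hp
  have h1 : Tendsto (fun K => ((∑ k ∈ Finset.range K, D.inc k r p : ℝ) : UnitAddCircle)) atTop
      (𝓝 ((∑' k, D.inc k r p : ℝ) : UnitAddCircle)) :=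
    ((AddCircle.continuous_mk' 1).tendsto _).comp (D.summable_inc r p).hasSum.tendsto_sum_nat
  have h2 : ∀ K, D.esum K (D.fl r p) = D.esum K p +
      ((∑ k ∈ Finset.range K, D.inc k r p : ℝ) : UnitAddCircle) := by
    intro K
    unfold esum
    induction K with
    | zero => simp
    | succ K ih =>
      rw [Finset.sum_range_succ, Finset.sum_range_succ, Finset.sum_range_succ, ih,
        AddCircle.coe_add]
      have h5 : ((UC K (D.ch K (D.fl r p)) : ℝ) : UnitAddCircle) =
          ((UC K (D.ch K p) : ℝ) : UnitAddCircle) + ((D.inc K r p : ℝ) : UnitAddCircle) := by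
        rw [← AddCircle.coe_add]
        congr 1
        unfold inc
        ring
      rw [h5]
      abel
  have h3 : Tendsto (fun K => D.esum K (D.fl r p)) atTop
      (𝓝 (c + ((∑' k, D.inc k r p : ℝ) : UnitAddCircle))) := by
    simp only [h2]
    exact hc.add h1
  refine ⟨⟨_, h3⟩, ?_⟩
  unfold ef
  rw [h3.limUnder_eq, hc.limUnder_eq, tau_eq, AddCircle.coe_add]
  have h4 : (prj (D.fl r p)).1 = (prj p).1 + ((r : ℝ) : UnitAddCircle) := by
    unfold fl nilflow
    rw [prj_rtr]
    simp [expX]
  rw [h4]
  abel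

theorem good_ps {p : Nilmanifold} (hp : p ∈ D.good) (t : ℝ) :
    D.ps t p ∈ D.good ∧ D.ef (D.ps t p) = D.ef p + ((t : ℝ) : UnitAddCircle) := by
  have := D.good_fl hp (D.rt p t)
  rw [tau_rt] at this
  exact this

/-- the bad arcs -/
def bad (k : ℕ) : Set UnitAddCircle := {c | ((UC k c : ℝ) : UnitAddCircle) ≠ 0}

theorem measurableSet_bad (k : ℕ) : MeasurableSet (bad k) := by
  have : Measurable (fun c => ((UC k c : ℝ) : UnitAddCircle)) :=
    ((AddCircle.continuous_mk' 1).comp (continuous_UC k)).measurable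
  exact this (measurableSet_singleton 0).compl

theorem pow_four_coe (k : ℕ) : (((4 : ℝ) ^ k : ℝ) : UnitAddCircle) = 0 := by
  have := coe_int (4 ^ k : ℤ)
  push_cast at this
  exact this

theorem bad_subset (k : ℕ) : (fun s : ℝ => (s : UnitAddCircle)) ⁻¹' (bad k) ∩ Ioc (0 : ℝ) 1 ⊆
    Icc 0 ((1 / 2) ^ (k + 1) / 4) ∪ Icc (1 / 2 - (1 / 2) ^ (k + 1) / 4) (1 / 2) := by
  rintro s ⟨hs, hs0, hs1⟩
  simp only [mem_preimage, bad, mem_ofPred_eq, UC_coe] at hs
  have hpi := Real.pi_pos
  have h1 : 0 < Real.sin (2 * Real.pi * s) := by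
    by_contra hcon
    rw [not_lt] at hcon
    rw [U_of_sin_le hcon] at hs
    simp at hs
  have h2 : Real.sin (2 * Real.pi * s) < (1 / 2) ^ (k + 1) := by
    by_contra hcon
    rw [not_lt] at hcon
    rw [U_of_le_sin hcon] at hs
    exact hs (pow_four_coe k)
  have h3 : s ≤ 1 / 2 := by
    by_contra hcon
    rw [not_le] at hcon
    have : Real.sin (2 * Real.pi * s) ≤ 0 := by
      have h4 := sin_half (s - 1 / 2)
      rw [sub_add_cancel] at h4
      rw [h4, neg_nonpos]
      apply Real.sin_nonneg_of_nonneg_of_le_pi <;> nlinarith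
    linarith
  rcases le_total s (1 / 4) with h | h
  · left
    refine ⟨hs0.le, ?_⟩
    have h4 := Real.mul_le_sin (x := 2 * Real.pi * s) (by positivity) (by nlinarith)
    have e : 2 / Real.pi * (2 * Real.pi * s) = 4 * s := by
      field_simp
      ring
    rw [e] at h4
    linarith
  · right
    refine ⟨?_, h3⟩
    have h4 := Real.mul_le_sin (x := Real.pi - 2 * Real.pi * s) (by nlinarith) (by nlinarith)
    rw [Real.sin_pi_sub] at h4
    have e : 2 / Real.pi * (Real.pi - 2 * Real.pi * s) = 2 - 4 * s := by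
      field_simp
      ring
    rw [e] at h4
    linarith

theorem volume_bad (k : ℕ) : volume (bad k) ≤ ENNReal.ofReal ((1 / 2) ^ (k + 2)) := by
  have h1 := (UnitAddCircle.measurePreserving_mk 0).measure_preimage
    (measurableSet_bad k).nullMeasurableSet
  rw [← h1, Measure.restrict_apply]
  · rw [zero_add]
    refine (measure_mono (bad_subset k)).trans ((measure_union_le _ _).trans ?_)
    have h0 : (0 : ℝ) < (1 / 2) ^ (k + 1) := by positivity
    rw [Real.volume_Icc, Real.volume_Icc, ← ENNReal.ofReal_add (by linarith) (by linarith)]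
    apply ENNReal.ofReal_le_ofReal
    rw [pow_succ (1 / 2 : ℝ) (k + 1)]
    linarith
  · exact AddCircle.measurable_mk' (measurableSet_bad k)

theorem ae_good : ∀ᵐ p ∂haar, p ∈ D.good := by
  have h1 : ∀ᵐ p ∂haar, ∀ᶠ k in atTop, p ∉ D.ch k ⁻¹' bad k := by
    apply ae_eventually_notMem
    have h2 : ∀ k, haar (D.ch k ⁻¹' bad k) ≤ ENNReal.ofReal ((1 / 2) ^ (k + 2)) := by
      intro k
      rw [(D.mp_ch k).measure_preimage (measurableSet_bad k).nullMeasurableSet]
      exact volume_bad k
    refine ne_top_of_le_ne_top ?_ (ENNReal.tsum_le_tsum h2)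
    rw [← ENNReal.ofReal_tsum_of_nonneg (fun k => by positivity) summable_half]
    exact ENNReal.ofReal_ne_top
  filter_upwards [h1] with p hp
  obtain ⟨K, hK⟩ := eventually_atTop.mp hp
  refine ⟨D.esum K p, ?_⟩
  refine tendsto_const_nhds.congr' ?_
  filter_upwards [eventually_ge_atTop K] with n hn
  induction n, hn using Nat.le_induction with
  | base => rfl
  | succ n hn ih =>
    have h3 := hK n hn
    simp only [mem_preimage, bad, mem_ofPred_eq, not_not] at h3
    rw [ih]
    unfold esum
    rw [Finset.sum_range_succ, h3, add_zero]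

end Data

end Pool.Agent.W740.Nil
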