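import Pool.Agent.W740.Nil.Inv

set_option autoImplicit false

open MeasureTheory Filter Topology Set
open scoped ContDiff

namespace Pool.Agent.W740.Nil

open Heis

/-- the arc -/
def arc : Set UnitAddCircle := (fun s : ℝ => (s : UnitAddCircle)) '' Icc (1 / 4) (3 / 4)

theorem measurableSet_arc : MeasurableSet arc :=
  (isCompact_Icc.image (AddCircle.continuous_mk' 1)).isClosed.measurableSet

theorem volume_arc : volume arc = ENNReal.ofReal (1 / 2) := by
  have h1 := (UnitAddCircle.measurePreserving_mk 0).measure_preimage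
    measurableSet_arc.nullMeasurableSet
  rw [← h1, Measure.restrict_apply (AddCircle.measurable_mk' measurableSet_arc)]
  have e : QuotientAddGroup.mk ⁻¹' arc ∩ Ioc (0 : ℝ) (0 + 1) = Icc (1 / 4) (3 / 4) := by
    ext s
    constructor
    · rintro ⟨⟨s', hs', h2⟩, hs0, hs1⟩
      have h3 : (s' : UnitAddCircle) = (s : UnitAddCircle) := h2
      rw [QuotientAddGroup.eq, AddSubgroup.mem_zmultiples_iff] at h3
      obtain ⟨n, hn⟩ := h3
      simp only [zsmul_eq_mul, mul_one] at hn
      have h4 : (n : ℝ) < 1 := by linarith [hs'.1]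
      have h5 : (-1 : ℝ) < n := by linarith [hs'.2]
      have h4' : n < 1 := by exact_mod_cast h4
      have h5' : -1 < n := by exact_mod_cast h5
      have h6 : n = 0 := by omega
      rw [h6] at hn
      have h7 : s = s' := by
        push_cast at hn
        linarith
      rw [h7]
      exact hs'
    · intro hs
      exact ⟨⟨s, hs, rfl⟩, by linarith [hs.1], by linarith [hs.2]⟩
  rw [e, Real.volume_Icc]
  norm_num

/-- the correlation function of the arc -/
noncomputable def Fc (s : ℝ) : ℝ :=
  (volume : Measure UnitAddCircle).real ((fun c : UnitAddCircle => c - (s : UnitAddCircle)) ⁻¹' arc ∩ arc)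

theorem Fc_int (n : ℕ) : Fc n = 1 / 2 := by
  unfold Fc
  have h := coe_int n
  have e : (((n : ℕ) : ℝ) : UnitAddCircle) = 0 := by
    exact_mod_cast h
  rw [e]
  simp only [sub_zero]
  have e2 : (fun c : UnitAddCircle => c) ⁻¹' arc ∩ arc = arc := by
    ext c
    simp
  rw [e2, Measure.real, volume_arc]
  norm_num

theorem Fc_ge (n : ℕ) {s : ℝ} (hs0 : 0 ≤ s) (hs : s ≤ 1 / 8) : 3 / 8 ≤ Fc (n + s) := by
  unfold Fc
  have h := coe_int n
  have e : (((n : ℕ) : ℝ) : UnitAddCircle) = 0 := by
    exact_mod_cast h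
  rw [AddCircle.coe_add, e, zero_add]
  have hm : MeasurableSet ((fun c : UnitAddCircle => c - (s : UnitAddCircle)) ⁻¹' arc ∩ arc) :=
    ((measurable_sub_const _) measurableSet_arc).inter measurableSet_arc
  have h1 := Data.arc_le (a := 1 / 4 + s) (b := 3 / 4) (by linarith) (by norm_num) hm (by
    intro x hx
    refine ⟨⟨x - s, ⟨by linarith [hx.1], by linarith [hx.2]⟩, ?_⟩, ⟨x, ⟨by linarith [hx.1], hx.2⟩, rfl⟩⟩
    simp)
  have h2 : ENNReal.ofReal (3 / 8) ≤ volume ((fun c : UnitAddCircle => c - (s : UnitAddCircle)) ⁻¹' arc ∩ arc) := by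
    refine le_trans (ENNReal.ofReal_le_ofReal ?_) h1
    linarith
  rw [Measure.real]
  exact (ENNReal.ofReal_le_iff_le_toReal (measure_ne_top _ _)).mp h2

theorem Fc_le (s : ℝ) : |Fc s| ≤ 1 := by
  unfold Fc
  rw [abs_of_nonneg measureReal_nonneg]
  exact measureReal_le_one

theorem measurable_Fc : Measurable Fc := by
  have hS : MeasurableSet {q : ℝ × UnitAddCircle |
      q.2 ∈ (fun c : UnitAddCircle => c - (q.1 : UnitAddCircle)) ⁻¹' arc ∩ arc} := by
    have hm : Measurable (fun q : ℝ × UnitAddCircle => q.2 - (q.1 : UnitAddCircle)) := by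
      have : Continuous (fun q : ℝ × UnitAddCircle => q.2 - (q.1 : UnitAddCircle)) :=
        continuous_snd.sub ((AddCircle.continuous_mk' 1).comp continuous_fst)
      exact this.measurable
    exact (hm measurableSet_arc).inter (measurable_snd measurableSet_arc)
  exact (measurable_measure_prodMk_left hS).ennreal_toReal

namespace Data

variable (D : Data)

/-- the test set -/
def tset : Set Nilmanifold := D.ef ⁻¹' arc ∩ D.good

theorem measurableSet_tset : MeasurableSet D.tset :=
  (D.measurable_ef measurableSet_arc).inter D.measurableSet_good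

theorem image_tset (s : ℝ) : D.ps s '' D.tset =
    D.ef ⁻¹' ((fun c : UnitAddCircle => c - (s : UnitAddCircle)) ⁻¹' arc) ∩ D.good := by
  ext q
  constructor
  · rintro ⟨p, ⟨hp1, hp2⟩, rfl⟩
    obtain ⟨h1, h2⟩ := D.good_ps hp2 s
    refine ⟨?_, h1⟩
    show D.ef (D.ps s p) - _ ∈ arc
    rw [h2, add_sub_cancel_right]
    exact hp1
  · rintro ⟨hq1, hq2⟩
    obtain ⟨h1, h2⟩ := D.good_ps hq2 (-s)
    refine ⟨D.ps (-s) q, ⟨?_, h1⟩, ?_⟩
    · show D.ef (D.ps (-s) q) ∈ arc
      rw [h2, AddCircle.coe_neg, ← sub_eq_add_neg]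
      exact hq1
    · rw [← ps_add, add_neg_cancel, ps_zero]

theorem nu_real (S : Set UnitAddCircle) (hS : MeasurableSet S) :
    D.nu.real (D.ef ⁻¹' S ∩ D.good) = (volume : Measure UnitAddCircle).real S := by
  rw [Measure.real, Measure.real, ← D.mp_ef.measure_preimage hS.nullMeasurableSet]
  congr 1
  apply measure_congr
  filter_upwards [D.ae_good_nu] with p hp
  apply propext
  exact ⟨fun h => h.1, fun h => ⟨h, hp⟩⟩

theorem corr_eq (s : ℝ) : D.nu.real (D.ps s '' D.tset ∩ D.tset) = Fc s := by
  rw [image_tset]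
  have e : D.ef ⁻¹' ((fun c : UnitAddCircle => c - (s : UnitAddCircle)) ⁻¹' arc) ∩ D.good ∩ D.tset =
      D.ef ⁻¹' ((fun c : UnitAddCircle => c - (s : UnitAddCircle)) ⁻¹' arc ∩ arc) ∩ D.good := by
    ext q
    simp only [tset, mem_inter_iff, mem_preimage]
    tauto
  rw [e, nu_real]
  · rfl
  · exact ((measurable_sub_const _) measurableSet_arc).inter measurableSet_arc

theorem nu_tset : D.nu.real D.tset = 1 / 2 := by
  unfold tset
  rw [D.nu_real _ measurableSet_arc, Measure.real, volume_arc]
  norm_num

theorem not_mixing : ¬ IsMixing D.ps D.nu := by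
  intro h
  have h1 := h D.tset D.tset D.measurableSet_tset D.measurableSet_tset
  rw [nu_tset] at h1
  simp only [corr_eq] at h1
  have h2 := h1.comp tendsto_natCast_atTop_atTop
  have h3 : Tendsto (fun n : ℕ => Fc n) atTop (𝓝 (1 / 2)) := by
    simp only [Fc_int]
    exact tendsto_const_nhds
  have := tendsto_nhds_unique h2 h3
  norm_num at this

theorem not_weaklyMixing : ¬ IsWeaklyMixing D.ps D.nu := by
  intro h
  have h1 := h D.tset D.tset D.measurableSet_tset D.measurableSet_tset
  rw [nu_tset] at h1
  simp only [corr_eq] at h1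
  set G : ℝ → ℝ := fun s => |Fc s - 1 / 2 * (1 / 2)| with hG
  have hGm : Measurable G := (measurable_Fc.sub_const _).abs
  have hGi : ∀ a b, IntervalIntegrable G volume a b := by
    intro a b
    rw [intervalIntegrable_iff]
    refine Measure.integrableOn_of_bounded (M := 2) ?_ hGm.aestronglyMeasurable ?_
    · simp
    · refine Eventually.of_forall fun s => ?_
      rw [Real.norm_eq_abs, hG]
      simp only [abs_abs]
      have := abs_le.mp (Fc_le s)
      rw [abs_le]
      constructor <;> linarith
  have hlow : ∀ n : ℕ, (n : ℝ) * (1 / 64) ≤ ∫ s in (0 : ℝ)..n, G s := by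
    intro n
    induction n with
    | zero => simp
    | succ n ih =>
      have h2 := intervalIntegral.integral_add_adjacent_intervals (hGi 0 n) (hGi n (n + 1 : ℕ))
      have h3 := intervalIntegral.integral_add_adjacent_intervals (hGi n (n + 1 / 8))
        (hGi (n + 1 / 8) (n + 1 : ℕ))
      have h4 : 0 ≤ ∫ s in ((n : ℝ) + 1 / 8)..((n + 1 : ℕ) : ℝ), G s := by
        apply intervalIntegral.integral_nonneg_of_forall
        · push_cast
          linarith
        · intro s
          exact abs_nonneg _
      have h5 : (1 / 64 : ℝ) ≤ ∫ s in (n : ℝ)..(n + 1 / 8), G s := by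
        have h6 : ∫ s in (n : ℝ)..(n + 1 / 8), (1 / 8 : ℝ) ≤ ∫ s in (n : ℝ)..(n + 1 / 8), G s := by
          refine intervalIntegral.integral_mono_on (by linarith) (by simp) (hGi _ _) ?_
          intro x hx
          have h7 := Fc_ge n (s := x - n) (by linarith [hx.1]) (by linarith [hx.2])
          rw [add_sub_cancel] at h7
          exact le_trans (by linarith) (le_abs_self _)
        rw [intervalIntegral.integral_const] at h6
        simp only [smul_eq_mul] at h6
        linarith
      push_cast at *
      linarith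
  have h2 := h1.comp tendsto_natCast_atTop_atTop
  have h3 : (1 / 64 : ℝ) ≤ 0 := by
    refine ge_of_tendsto h2 ?_
    filter_upwards [eventually_gt_atTop 0] with n hn
    have hn' : (0 : ℝ) < n := by exact_mod_cast hn
    simp only [Function.comp]
    have := hlow n
    rw [one_div_mul_eq_div, le_div_iff₀ hn']
    linarith
  norm_num at h3

end Data

end Pool.Agent.W740.Nil
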