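import Pool.Agent.W740.Nil.GFun

set_option autoImplicit false

open MeasureTheory Filter Topology Set
open scoped ContDiff

namespace Pool.Agent.W740.Nil

open Heis

theorem expX_add (X : ℝ × ℝ × ℝ) (s t : ℝ) : expX X t * expX X s = expX X (s + t) := by
  ext <;> simp [expX] <;> ring

namespace Data

variable (D : Data)

theorem fl_add (s t : ℝ) (p : Nilmanifold) : D.fl (s + t) p = D.fl s (D.fl t p) := by
  unfold fl nilflow
  rw [rtr_rtr, expX_add]

theorem fl_zero (p : Nilmanifold) : D.fl 0 p = p := by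
  unfold fl nilflow
  have : expX (1, D.θ, 0) 0 = 1 := by
    ext <;> simp [expX]
  rw [this, rtr_one]

theorem continuous_fl (p : Nilmanifold) : Continuous (fun s => D.fl s p) := by
  unfold fl nilflow
  refine continuous_rtr_prod.comp (continuous_const.prodMk ?_)
  exact continuous_mk (by fun_prop) (by fun_prop) (by fun_prop)

theorem continuous_fl_prod : Continuous (fun q : ℝ × Nilmanifold => D.fl q.1 q.2) := by
  unfold fl nilflow
  refine continuous_rtr_prod.comp (continuous_snd.prodMk ?_)
  exact continuous_mk (by fun_prop) (by fun_prop) (by fun_prop)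

theorem continuous_fl' (t : ℝ) : Continuous (D.fl t) := continuous_nilflow _ _

theorem mp_fl (t : ℝ) : MeasurePreserving (D.fl t) haar haar := mp_nilflow _ _

/-- increments -/
noncomputable def inc (k : ℕ) (r : ℝ) (p : Nilmanifold) : ℝ :=
  UC k (D.ch k (D.fl r p)) - UC k (D.ch k p)

theorem UC_lip (k : ℕ) (c : UnitAddCircle) (s : ℝ) : |UC k (c + (s : UnitAddCircle)) - UC k c| ≤
    CV k 0 * |s| := by
  obtain ⟨x, rfl⟩ := QuotientAddGroup.mk_surjective c
  have h := U_lip k (x + s) x
  rw [add_sub_cancel_left] at h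
  exact h

theorem inc_le (k : ℕ) (r : ℝ) (p : Nilmanifold) : |D.inc k r p| ≤ |r| * (|D.δ k| * CV k 0) := by
  unfold inc
  rw [ch_fl]
  refine (UC_lip k _ _).trans ?_
  rw [abs_mul]
  apply le_of_eq
  ring

theorem inc_le' (k : ℕ) (r : ℝ) (p : Nilmanifold) : |D.inc k r p| ≤ |r| * (1 / 2) ^ (k + 2) :=
  (D.inc_le k r p).trans (mul_le_mul_of_nonneg_left (D.δ_CV k) (abs_nonneg _))

theorem summable_inc (r : ℝ) (p : Nilmanifold) : Summable (fun k => D.inc k r p) :=
  Summable.of_norm_bounded (summable_half.mul_left |r|) fun k => D.inc_le' k r p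

theorem hasDerivAt_inc (p : Nilmanifold) (r : ℝ) :
    HasDerivAt (fun r => ∑' k, D.inc k r p) (D.gf (D.fl r p)) r := by
  have h := hasDerivAt_tsum (u := fun k => (1 / 2 : ℝ) ^ (k + 2)) (g := fun k r => D.inc k r p)
    (g' := fun k r => D.δ k * VC k (D.ch k (D.fl r p))) (y₀ := 0) summable_half ?_ ?_
    (D.summable_inc 0 p) r
  · exact h
  · intro k y
    obtain ⟨g, rfl⟩ := toNil_surj p
    have e1 : (fun r => D.inc k r (toNil g)) = fun r =>
        U k ((D.q k : ℝ) * g.y - D.p k * g.x + r * D.δ k) - U k ((D.q k : ℝ) * g.y - D.p k * g.x) := by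
      funext r
      unfold inc
      rw [ch_fl, ch_toNil, ← AddCircle.coe_add, UC_coe, UC_coe]
    rw [e1]
    have e2 : D.δ k * VC k (D.ch k (D.fl y (toNil g))) =
        V k ((D.q k : ℝ) * g.y - D.p k * g.x + y * D.δ k) * D.δ k := by
      rw [ch_fl, ch_toNil, ← AddCircle.coe_add, VC_coe, mul_comm]
    rw [e2]
    have h1 : HasDerivAt (fun r : ℝ => (D.q k : ℝ) * g.y - D.p k * g.x + r * D.δ k) (D.δ k) y := by
      simpa using ((hasDerivAt_id y).mul_const (D.δ k)).const_add
        ((D.q k : ℝ) * g.y - D.p k * g.x)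
    exact ((hasDerivAt_U k _).comp y h1).sub_const _
  · intro k y
    exact D.term_le k _

/-- the time -/
noncomputable def tau (p : Nilmanifold) (r : ℝ) : ℝ := ∫ s in (0 : ℝ)..r, D.al (D.fl s p)

theorem continuous_al_fl (p : Nilmanifold) : Continuous (fun s => D.al (D.fl s p)) :=
  D.continuous_al.comp (D.continuous_fl p)

theorem tau_eq (p : Nilmanifold) (r : ℝ) : D.tau p r = r + ∑' k, D.inc k r p := by
  unfold tau
  have h : ∀ x ∈ uIcc 0 r, HasDerivAt (fun r => r + ∑' k, D.inc k r p) (D.al (D.fl x p)) x :=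
    fun x _ => (hasDerivAt_id x).add (D.hasDerivAt_inc p x)
  rw [intervalIntegral.integral_eq_sub_of_hasDerivAt h
    ((D.continuous_al_fl p).intervalIntegrable _ _)]
  have h0 : ∑' k, D.inc k 0 p = 0 := by
    have : ∀ k, D.inc k 0 p = 0 := fun k => by
      unfold inc
      rw [fl_zero, sub_self]
    simp [this]
  rw [h0]
  simp

theorem tau_add (p : Nilmanifold) (r s : ℝ) : D.tau p (r + s) = D.tau p r + D.tau (D.fl r p) s := by
  unfold tau
  have e : ∀ x, D.al (D.fl x (D.fl r p)) = D.al (D.fl (x + r) p) := fun x => by rw [fl_add]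
  simp only [e]
  rw [intervalIntegral.integral_comp_add_right (fun x => D.al (D.fl x p)) r, zero_add, add_comm s r]
  exact (intervalIntegral.integral_add_adjacent_intervals
    ((D.continuous_al_fl p).intervalIntegrable _ _) ((D.continuous_al_fl p).intervalIntegrable _ _)).symm

theorem tau_ge (p : Nilmanifold) {r : ℝ} (hr : 0 ≤ r) : r / 2 ≤ D.tau p r := by
  unfold tau
  have : ∫ s in (0 : ℝ)..r, (1 / 2 : ℝ) ≤ ∫ s in (0 : ℝ)..r, D.al (D.fl s p) := by
    refine intervalIntegral.integral_mono_on hr (by simp) ((D.continuous_al_fl p).intervalIntegrable _ _)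
      fun x _ => D.al_ge _
  simp at this
  linarith

theorem strictMono_tau (p : Nilmanifold) : StrictMono (D.tau p) := by
  intro a b hab
  have h1 := D.tau_add p a (b - a)
  rw [add_sub_cancel] at h1
  have h2 := D.tau_ge (D.fl a p) (r := b - a) (by linarith)
  linarith

theorem tau_le_neg (p : Nilmanifold) {r : ℝ} (hr : r ≤ 0) : D.tau p r ≤ r / 2 := by
  have h1 := D.tau_add p r (-r)
  rw [add_neg_cancel] at h1
  have h2 := D.tau_ge (D.fl r p) (r := -r) (by linarith)
  have h3 : D.tau p 0 = 0 := by simp [tau]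
  linarith

theorem continuous_tau (p : Nilmanifold) : Continuous (D.tau p) :=
  intervalIntegral.continuous_primitive (fun _ _ => (D.continuous_al_fl p).intervalIntegrable _ _) 0

theorem surj_tau (p : Nilmanifold) : Function.Surjective (D.tau p) := by
  refine (D.continuous_tau p).surjective ?_ ?_
  · refine tendsto_atTop_mono' _ ?_ (tendsto_id.atTop_div_const (by norm_num : (0 : ℝ) < 2))
    filter_upwards [eventually_ge_atTop 0] with r hr
    exact D.tau_ge p hr
  · refine tendsto_atBot_mono' _ ?_ (tendsto_id.atBot_div_const (by norm_num : (0 : ℝ) < 2))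
    filter_upwards [eventually_le_atBot 0] with r hr
    exact D.tau_le_neg p hr

/-- the inverse of `tau` -/
noncomputable def rt (p : Nilmanifold) (t : ℝ) : ℝ := (D.surj_tau p t).choose

theorem tau_rt (p : Nilmanifold) (t : ℝ) : D.tau p (D.rt p t) = t := (D.surj_tau p t).choose_spec

/-- the time-change -/
noncomputable def ps (t : ℝ) (p : Nilmanifold) : Nilmanifold := D.fl (D.rt p t) p

theorem isTimeChange_ps : IsTimeChange (nilflow (1, D.θ, 0)) D.al D.ps :=
  fun t p => ⟨D.rt p t, rfl, D.tau_rt p t⟩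

theorem rt_zero (p : Nilmanifold) : D.rt p 0 = 0 := by
  apply (D.strictMono_tau p).injective
  rw [tau_rt]
  simp [tau]

theorem ps_zero (p : Nilmanifold) : D.ps 0 p = p := by
  unfold ps
  rw [rt_zero, fl_zero]

theorem rt_add (p : Nilmanifold) (s t : ℝ) : D.rt p (s + t) = D.rt p t + D.rt (D.ps t p) s := by
  apply (D.strictMono_tau p).injective
  rw [tau_add, tau_rt, tau_rt]
  show s + t = t + D.tau (D.ps t p) _
  rw [tau_rt, add_comm]

theorem ps_add (p : Nilmanifold) (s t : ℝ) : D.ps (s + t) p = D.ps s (D.ps t p) := by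
  show D.fl (D.rt p (s + t)) p = D.fl (D.rt (D.ps t p) s) (D.fl (D.rt p t) p)
  rw [rt_add, add_comm, fl_add]

end Data

end Pool.Agent.W740.Nil
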