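import Mathlib

set_option autoImplicit false

open MeasureTheory Filter Topology Set
open scoped ContDiff

namespace Pool.Agent.W740.Nil

/-- The building block: a smooth `1`-periodic function, equal to `4 ^ k` on most of the arc where
the sine is positive, and to `0` where the sine is negative. -/
noncomputable def U (k : ℕ) (s : ℝ) : ℝ :=
  4 ^ k * Real.smoothTransition (Real.sin (2 * Real.pi * s) * 2 ^ (k + 1))

/-- Its derivative. -/
noncomputable def V (k : ℕ) : ℝ → ℝ := deriv (U k)

theorem contDiff_U (k : ℕ) : ContDiff ℝ ∞ (U k) := by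
  unfold U
  refine contDiff_const.mul (Real.smoothTransition.contDiff.comp ?_)
  refine ContDiff.mul ?_ contDiff_const
  exact Real.contDiff_sin.comp (contDiff_const.mul contDiff_id)

theorem contDiff_V (k : ℕ) : ContDiff ℝ ∞ (V k) := by
  have h := contDiff_U k
  exact (contDiff_infty_iff_deriv.mp h).2

theorem hasDerivAt_U (k : ℕ) (s : ℝ) : HasDerivAt (U k) (V k s) s :=
  ((contDiff_U k).differentiable (by simp) s).hasDerivAt

theorem sin_per (s : ℝ) (n : ℤ) : Real.sin (2 * Real.pi * (s + n)) = Real.sin (2 * Real.pi * s) := by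
  rw [show 2 * Real.pi * (s + n) = 2 * Real.pi * s + n * (2 * Real.pi) by ring,
    Real.sin_add_int_mul_two_pi]

theorem U_add_int (k : ℕ) (s : ℝ) (n : ℤ) : U k (s + n) = U k s := by
  unfold U
  rw [sin_per]

theorem V_add_int (k : ℕ) (s : ℝ) (n : ℤ) : V k (s + n) = V k s := by
  have h1 := (hasDerivAt_U k (s + n)).comp_add_const s n
  have h2 : (fun x => U k (x + n)) = U k := by
    funext x
    exact U_add_int k x n
  rw [h2] at h1
  exact h1.unique (hasDerivAt_U k s)

theorem U_nonneg (k : ℕ) (s : ℝ) : 0 ≤ U k s :=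
  mul_nonneg (by positivity) (Real.smoothTransition.nonneg _)

theorem U_le (k : ℕ) (s : ℝ) : U k s ≤ 4 ^ k := by
  unfold U
  have := Real.smoothTransition.le_one (Real.sin (2 * Real.pi * s) * 2 ^ (k + 1))
  nlinarith [show (0 : ℝ) < 4 ^ k by positivity]

theorem U_of_sin_le {k : ℕ} {s : ℝ} (h : Real.sin (2 * Real.pi * s) ≤ 0) : U k s = 0 := by
  unfold U
  rw [Real.smoothTransition.zero_of_nonpos, mul_zero]
  exact mul_nonpos_of_nonpos_of_nonneg h (by positivity)

theorem U_of_le_sin {k : ℕ} {s : ℝ} (h : (1 / 2) ^ (k + 1) ≤ Real.sin (2 * Real.pi * s)) :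
    U k s = 4 ^ k := by
  unfold U
  rw [Real.smoothTransition.one_of_one_le, mul_one]
  calc (1 : ℝ) = (1 / 2) ^ (k + 1) * 2 ^ (k + 1) := by
        rw [← mul_pow]
        norm_num
    _ ≤ _ := by gcongr

/-- bounded derivatives -/
theorem exists_bound_V (k i : ℕ) : ∃ C : ℝ, 0 ≤ C ∧ ∀ s, ‖iteratedDeriv i (V k) s‖ ≤ C := by
  have hc : Continuous (iteratedDeriv i (V k)) := by
    refine (contDiff_V k).continuous_iteratedDeriv i ?_
    exact_mod_cast le_top
  have hp : ∀ s, iteratedDeriv i (V k) (s + 1) = iteratedDeriv i (V k) s := by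
    intro s
    have h1 := iteratedDeriv_comp_add_const i (V k) (1 : ℝ)
    have h2 : (fun z => V k (z + 1)) = V k := by
      funext z
      have := V_add_int k z 1
      simpa using this
    have h3 := congrFun h1 s
    rw [h2] at h3
    exact h3.symm
  have hper : Function.Periodic (iteratedDeriv i (V k)) 1 := hp
  obtain ⟨C, hC⟩ := (isCompact_Icc (a := (0 : ℝ)) (b := 1)).exists_bound_of_continuousOn hc.continuousOn
  refine ⟨max C 0, le_max_right _ _, fun s => ?_⟩
  obtain ⟨t, ht, hst⟩ := hper.exists_mem_Ico₀ one_pos s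
  rw [hst]
  exact (hC t (Ico_subset_Icc_self ht)).trans (le_max_left _ _)

/-- A bound for the derivatives of `V k`. -/
noncomputable def CV (k i : ℕ) : ℝ := (exists_bound_V k i).choose

theorem CV_nonneg (k i : ℕ) : 0 ≤ CV k i := (exists_bound_V k i).choose_spec.1

theorem CV_spec (k i : ℕ) (s : ℝ) : ‖iteratedDeriv i (V k) s‖ ≤ CV k i :=
  (exists_bound_V k i).choose_spec.2 s

theorem V_le (k : ℕ) (s : ℝ) : |V k s| ≤ CV k 0 := by
  have := CV_spec k 0 s
  simpa using this

theorem U_lip (k : ℕ) (s t : ℝ) : |U k s - U k t| ≤ CV k 0 * |s - t| := by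
  have := Convex.norm_image_sub_le_of_norm_hasDerivWithin_le (s := univ) (f := U k) (f' := V k)
    (C := CV k 0) (x := t) (y := s) (fun x _ => (hasDerivAt_U k x).hasDerivWithinAt)
    (fun x _ => V_le k x) convex_univ (mem_univ _) (mem_univ _)
  exact this

end Pool.Agent.W740.Nil
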