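import Pool.Agent.W740.Nil.UE3

set_option autoImplicit false

open MeasureTheory Filter Topology Set
open scoped ContDiff ComplexConjugate

namespace Pool.Agent.W740.Nil

open Heis

theorem const_of_fourier (h : ℝ → ℂ) (hc : Continuous h) (hp : Function.Periodic h 1)
    (h0 : ∀ k : ℤ, k ≠ 0 → ∫ c in (0 : ℝ)..1, ee (-(k * c)) * h c = 0) (x : ℝ) :
    h x = ∫ c in (0 : ℝ)..1, h c := by
  have hcl : Continuous (hp.lift : UnitAddCircle → ℂ) :=
    hc.quotient_lift _
  set f : C(UnitAddCircle, ℂ) := ⟨hp.lift, hcl⟩ with hf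
  have hfx : ∀ x : ℝ, f (x : UnitAddCircle) = h x := fun x => hp.lift_coe x
  have hcoef : ∀ n : ℤ, fourierCoeff f n = ∫ c in (0 : ℝ)..1, ee (-(n * c)) * h c := by
    intro n
    rw [fourierCoeff_eq_intervalIntegral f n 0]
    simp only [zero_add, div_one, one_smul]
    refine intervalIntegral.integral_congr fun c _ => ?_
    simp only [hfx, smul_eq_mul]
    congr 1
    rw [fourier_coe_apply]
    unfold ee
    congr 1
    push_cast
    ring
  have hz : ∀ n : ℤ, n ≠ 0 → fourierCoeff f n = 0 := fun n hn => by rw [hcoef, h0 n hn]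
  have hs : Summable (fourierCoeff f) :=
    summable_of_ne_finset_zero (s := {0}) fun n hn => hz n (by simpa using hn)
  have h1 := has_pointwise_sum_fourier_series_of_summable hs (x : UnitAddCircle)
  have h2 : HasSum (fun i => fourierCoeff f i • fourier i (x : UnitAddCircle))
      (fourierCoeff f 0 • fourier 0 (x : UnitAddCircle)) :=
    hasSum_single 0 fun n hn => by rw [hz n hn, zero_smul]
  have h3 := h1.unique h2
  rw [hfx, fourier_zero, hcoef] at h3
  rw [h3]
  simp [ee_zero]

theorem integral_eq_avg {θ : ℝ} (hθ : Irrational θ) (ν : Measure Nilmanifold)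
    [IsProbabilityMeasure ν] (hν : ∀ t, MeasurePreserving (nilflow (1, θ, 0) t) ν ν) :
    ∀ f : Nilmanifold → ℂ, Continuous f → ∫ p, f p ∂ν =
      ∫ p, (∫ c in (0 : ℝ)..1, f (rtr (cen c) p)) ∂haar := by
  have hcyc : Continuous (fun q : Nilmanifold × ℝ => rtr (cen q.2) q.1) :=
    continuous_rtr_prod.comp (continuous_fst.prodMk (continuous_cen.comp continuous_snd))
  intro f hf
  obtain ⟨B, hB0, hB⟩ := exists_bound f hf
  have hfc : Continuous (fun q : Nilmanifold × ℝ => f (rtr (cen q.2) q.1)) := hf.comp hcyc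
  set Φ : ℝ → ℂ := fun c => ∫ p, f (rtr (cen c) p) ∂ν with hΦ
  have hΦc : Continuous Φ := by
    refine continuous_of_dominated (bound := fun _ => B) ?_ ?_ (integrable_const _) ?_
    · intro c
      exact (hf.comp (continuous_rtr _)).aestronglyMeasurable
    · intro c
      exact Eventually.of_forall fun p => hB _
    · exact Eventually.of_forall fun p => hfc.comp (Continuous.prodMk_right p)
  have hΦp : Function.Periodic Φ 1 := by
    intro c
    rw [hΦ]
    simp only
    congr 1
    funext p
    have : cen (c + 1) = cen ((1 : ℤ) : ℝ) * cen c := by rw [cen_mul_cen]; push_cast; ring_nf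
    rw [this, ← rtr_rtr, rtr_cen_int]
  have hper : ∀ (p : Nilmanifold), Function.Periodic (fun c => f (rtr (cen c) p)) 1 := by
    intro p c
    have : cen (c + 1) = cen ((1 : ℤ) : ℝ) * cen c := by rw [cen_mul_cen]; push_cast; ring_nf
    simp only
    rw [this, ← rtr_rtr, rtr_cen_int]
  -- Fubini
  have fub : ∀ g : ℝ → ℂ, Continuous g →
      ∫ c in (0 : ℝ)..1, g c * Φ c = ∫ p, (∫ c in (0 : ℝ)..1, g c * f (rtr (cen c) p)) ∂ν := by
    intro g hg
    simp only [intervalIntegral.integral_of_le (zero_le_one' ℝ)]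
    have e : ∀ c, g c * Φ c = ∫ p, g c * f (rtr (cen c) p) ∂ν := fun c => by
      rw [integral_const_mul]
    simp only [e]
    rw [integral_integral_swap]
    obtain ⟨Cg, hCg⟩ := (isCompact_Icc (a := (0 : ℝ)) (b := 1)).exists_bound_of_continuousOn
      hg.continuousOn
    refine Integrable.of_bound (C := Cg * B) ?_ ?_
    · refine Continuous.aestronglyMeasurable ?_
      exact (hg.comp continuous_fst).mul (hfc.comp continuous_swap)
    · have hae : ∀ᵐ c ∂(volume.restrict (Ioc (0 : ℝ) 1)), c ∈ Ioc (0 : ℝ) 1 :=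
        ae_restrict_mem measurableSet_Ioc
      have hae2 : ∀ᵐ q ∂((volume.restrict (Ioc (0 : ℝ) 1)).prod ν), q.1 ∈ Ioc (0 : ℝ) 1 :=
        Measure.quasiMeasurePreserving_fst.ae hae
      filter_upwards [hae2] with q hq
      show ‖g q.1 * f (rtr (cen q.1) q.2)‖ ≤ _
      rw [norm_mul]
      have h1 := hCg q.1 (Ioc_subset_Icc_self hq)
      have h2 := hB (rtr (cen q.1) q.2)
      exact mul_le_mul h1 h2 (norm_nonneg _) ((norm_nonneg _).trans h1)
  -- continuity of parametric integrals
  have hFc : ∀ g : ℝ → ℂ, Continuous g →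
      Continuous (fun p => ∫ c in (0 : ℝ)..1, g c * f (rtr (cen c) p)) := by
    intro g hg
    refine intervalIntegral.continuous_parametric_intervalIntegral_of_continuous' ?_ 0 1
    exact (hg.comp continuous_snd).mul hfc
  have hzero : ∀ k : ℤ, k ≠ 0 → ∫ c in (0 : ℝ)..1, ee (-(k * c)) * Φ c = 0 := by
    intro k hk
    have hek : Continuous (fun c : ℝ => ee (-(k * c))) := continuous_ee.comp (by fun_prop)
    rw [fub _ hek]
    refine integral_freq_zero hθ ν hν hk _ (hFc _ hek) ?_
    intro a p
    simp only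
    have e1 : ∀ c, rtr (cen c) (rtr (cen a) p) = rtr (cen (a + c)) p := fun c => by
      rw [rtr_rtr, cen_mul_cen]
    simp only [e1]
    have e2 : ∀ c : ℝ, ee (-(k * c)) * f (rtr (cen (a + c)) p) =
        ee (k * a) * (ee (-(k * (a + c))) * f (rtr (cen (a + c)) p)) := by
      intro c
      rw [← mul_assoc, ← ee_add]
      congr 2
      ring
    simp only [e2]
    rw [intervalIntegral.integral_const_mul]
    congr 1
    have hper2 : Function.Periodic (fun c : ℝ => ee (-(k * c)) * f (rtr (cen c) p)) 1 := by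
      intro c
      have h1 := hper p c
      simp only at h1 ⊢
      rw [h1]
      congr 1
      rw [show (-(k * (c + 1)) : ℝ) = -(k * c) + ((-k : ℤ) : ℝ) by push_cast; ring, ee_add,
        ee_int, mul_one]
    have h3 := hper2.intervalIntegral_add_eq a 0
    rw [zero_add] at h3
    rw [← h3]
    rw [intervalIntegral.integral_comp_add_left
      (fun c : ℝ => ee (-(k * c)) * f (rtr (cen c) p)) a]
    simp
  have h1 := const_of_fourier Φ hΦc hΦp hzero 0
  have h2 : Φ 0 = ∫ p, f p ∂ν := by
    rw [hΦ]
    simp only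
    congr 1
    funext p
    have : cen 0 = 1 := rfl
    rw [this, rtr_one]
  rw [← h2, h1]
  have h3 := fub (fun _ => 1) continuous_const
  simp only [one_mul] at h3
  rw [h3]
  refine integral_central hθ ν hν _ ?_ ?_
  · simpa using hFc (fun _ => 1) continuous_const
  · intro a p
    have e1 : ∀ c, rtr (cen c) (rtr (cen a) p) = rtr (cen (a + c)) p := fun c => by
      rw [rtr_rtr, cen_mul_cen]
    simp only [e1]
    have h3 := (hper p).intervalIntegral_add_eq a 0
    rw [zero_add] at h3
    rw [← h3, intervalIntegral.integral_comp_add_left (fun c : ℝ => f (rtr (cen c) p)) a]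
    simp

theorem uniquelyErgodic {θ : ℝ} (hθ : Irrational θ) :
    IsUniquelyErgodic (nilflow (1, θ, 0)) haar := by
  refine ⟨mp_nilflow _, fun ν _ hν => ?_⟩
  apply ext_of_forall_integral_eq_of_IsFiniteMeasure
  intro f
  have hfc : Continuous (fun p => ((f p : ℝ) : ℂ)) := Complex.continuous_ofReal.comp f.continuous
  have h1 := integral_eq_avg hθ ν hν _ hfc
  have h2 := integral_eq_avg hθ haar (mp_nilflow _) _ hfc
  rw [← h2, integral_complex_ofReal, integral_complex_ofReal] at h1
  exact_mod_cast h1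

end Pool.Agent.W740.Nil
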