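import Pool.Agent.W740.Nil.Seq
import Pool.Agent.W740.Nil.UE4

set_option autoImplicit false

open MeasureTheory Filter Topology Set
open scoped ContDiff

namespace Pool.Agent.W740.Nil

open Heis

theorem U_periodic (k : ℕ) : Function.Periodic (U k) 1 := fun s => by
  simpa using U_add_int k s 1

theorem V_periodic (k : ℕ) : Function.Periodic (V k) 1 := fun s => by
  simpa using V_add_int k s 1

/-- `U k` on the circle -/
noncomputable def UC (k : ℕ) : UnitAddCircle → ℝ := (U_periodic k).lift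

/-- `V k` on the circle -/
noncomputable def VC (k : ℕ) : UnitAddCircle → ℝ := (V_periodic k).lift

@[simp] theorem UC_coe (k : ℕ) (s : ℝ) : UC k (s : UnitAddCircle) = U k s := (U_periodic k).lift_coe s
@[simp] theorem VC_coe (k : ℕ) (s : ℝ) : VC k (s : UnitAddCircle) = V k s := (V_periodic k).lift_coe s

theorem continuous_UC (k : ℕ) : Continuous (UC k) := (contDiff_U k).continuous.quotient_lift _
theorem continuous_VC (k : ℕ) : Continuous (VC k) := (contDiff_V k).continuous.quotient_lift _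

namespace Data

variable (D : Data)

/-- the small numbers -/
noncomputable def δ (k : ℕ) : ℝ := (D.q k : ℝ) * D.θ - D.p k

theorem δ_ne (k : ℕ) : D.δ k ≠ 0 := by
  intro h0
  unfold δ at h0
  have h1 : (D.q k : ℝ) ≠ 0 := by
    have : D.q k ≠ 0 := by
      have := D.hq k
      omega
    exact_mod_cast this
  have h2 : D.θ = ((D.p k / D.q k : ℚ) : ℝ) := by
    push_cast
    field_simp
    linarith
  exact D.irr ⟨_, h2.symm⟩

theorem δ_pos (k : ℕ) : 0 < |D.δ k| := abs_pos.mpr (D.δ_ne k)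

theorem δ_CV (k : ℕ) : |D.δ k| * CV k 0 ≤ (1 / 2) ^ (k + 2) := by
  have := D.small k 0 (Nat.zero_le _)
  rw [pow_zero, mul_one] at this
  exact this

theorem δ_rat (k : ℕ) : |D.δ (k + 1)| * (CV (k + 1) 0 + 1) ≤ (1 / 2) ^ (k + 1) * |D.δ k| :=
  D.rat k

/-- the characters of the torus -/
noncomputable def ch (k : ℕ) (p : Nilmanifold) : UnitAddCircle :=
  D.q k • (prj p).2 - D.p k • (prj p).1

theorem ch_toNil (k : ℕ) (g : Heis) :
    D.ch k (toNil g) = (((D.q k : ℝ) * g.y - D.p k * g.x : ℝ) : UnitAddCircle) := by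
  unfold ch
  rw [prj_toNil]
  simp only
  rw [← AddCircle.coe_zsmul, ← AddCircle.coe_zsmul, ← AddCircle.coe_sub]
  simp

theorem ch_rtr (k : ℕ) (h : Heis) (p : Nilmanifold) :
    D.ch k (rtr h p) = D.ch k p + (((D.q k : ℝ) * h.y - D.p k * h.x : ℝ) : UnitAddCircle) := by
  obtain ⟨g, rfl⟩ := toNil_surj p
  rw [rtr_toNil, ch_toNil, ch_toNil, ← AddCircle.coe_add]
  congr 1
  simp
  ring

/-- the flow -/
noncomputable def fl (t : ℝ) : Nilmanifold → Nilmanifold := nilflow (1, D.θ, 0) t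

theorem ch_fl (k : ℕ) (t : ℝ) (p : Nilmanifold) :
    D.ch k (D.fl t p) = D.ch k p + ((t * D.δ k : ℝ) : UnitAddCircle) := by
  unfold fl nilflow
  rw [ch_rtr]
  congr 2
  simp [expX, δ]
  ring

theorem continuous_ch (k : ℕ) : Continuous (D.ch k) := by
  unfold ch
  have := continuous_prj
  fun_prop

/-- the function on the nilmanifold -/
noncomputable def gf (p : Nilmanifold) : ℝ := ∑' k, D.δ k * VC k (D.ch k p)

theorem VC_le (k : ℕ) (c : UnitAddCircle) : |VC k c| ≤ CV k 0 := by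
  obtain ⟨s, rfl⟩ := QuotientAddGroup.mk_surjective c
  exact V_le k s

theorem term_le (k : ℕ) (c : UnitAddCircle) : ‖D.δ k * VC k c‖ ≤ (1 / 2) ^ (k + 2) := by
  rw [Real.norm_eq_abs, abs_mul]
  exact (mul_le_mul_of_nonneg_left (VC_le k c) (abs_nonneg _)).trans (D.δ_CV k)

theorem hasSum_half : HasSum (fun k : ℕ => ((1 : ℝ) / 2) ^ (k + 2)) (1 / 2) := by
  have h := (hasSum_geometric_two).mul_right ((1 / 2 : ℝ) ^ 2)
  have e : (fun k : ℕ => ((1 : ℝ) / 2) ^ (k + 2)) = fun k => (1 / 2) ^ k * (1 / 2) ^ 2 := by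
    funext k
    rw [pow_add]
  rw [e]
  have e2 : (1 / 2 : ℝ) = 2 * (1 / 2) ^ 2 := by norm_num
  nth_rewrite 3 [e2]
  exact h

theorem summable_half : Summable (fun k : ℕ => ((1 : ℝ) / 2) ^ (k + 2)) := hasSum_half.summable

theorem gf_le (p : Nilmanifold) : |D.gf p| ≤ 1 / 2 := by
  unfold gf
  rw [← Real.norm_eq_abs]
  exact tsum_of_norm_bounded hasSum_half fun k => D.term_le k _

theorem continuous_gf : Continuous D.gf :=
  continuous_tsum (fun k => continuous_const.mul ((continuous_VC k).comp (D.continuous_ch k)))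
    summable_half fun k _ => D.term_le k _

/-- the function `α` -/
noncomputable def al (p : Nilmanifold) : ℝ := 1 + D.gf p

theorem continuous_al : Continuous D.al := continuous_const.add D.continuous_gf

theorem al_ge (p : Nilmanifold) : 1 / 2 ≤ D.al p := by
  have := abs_le.mp (D.gf_le p)
  unfold al
  linarith [this.1]

theorem al_le (p : Nilmanifold) : D.al p ≤ 3 / 2 := by
  have := abs_le.mp (D.gf_le p)
  unfold al
  linarith [this.2]

theorem al_pos (p : Nilmanifold) : 0 < D.al p := by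
  have := D.al_ge p
  linarith

/-- the linear form -/
noncomputable def lf (k : ℕ) : ℝ × ℝ × ℝ →L[ℝ] ℝ :=
  (D.q k : ℝ) • ((ContinuousLinearMap.fst ℝ ℝ ℝ).comp (ContinuousLinearMap.snd ℝ ℝ (ℝ × ℝ))) -
    (D.p k : ℝ) • (ContinuousLinearMap.fst ℝ ℝ (ℝ × ℝ))

theorem lf_apply (k : ℕ) (v : ℝ × ℝ × ℝ) : D.lf k v = D.q k * v.2.1 - D.p k * v.1 := by
  simp [lf]

theorem lf_norm (k : ℕ) : ‖D.lf k‖ ≤ |(D.p k : ℝ)| + |(D.q k : ℝ)| := by
  refine ContinuousLinearMap.opNorm_le_bound _ (by positivity) fun v => ?_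
  rw [lf_apply, Real.norm_eq_abs]
  refine (abs_sub _ _).trans ?_
  rw [abs_mul, abs_mul]
  have h1 : |v.1| ≤ ‖v‖ := norm_fst_le v
  have h2 : |v.2.1| ≤ ‖v‖ := (norm_fst_le v.2).trans (norm_snd_le v)
  have h3 := abs_nonneg (D.p k : ℝ)
  have h4 := abs_nonneg (D.q k : ℝ)
  nlinarith

theorem isSmooth_al : IsSmooth D.al := by
  unfold IsSmooth al
  refine contDiff_const.add ?_
  have e : (fun v : ℝ × ℝ × ℝ => D.gf (toNil ⟨v.1, v.2.1, v.2.2⟩)) =
      fun v => ∑' k, D.δ k * V k (D.lf k v) := by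
    funext v
    unfold gf
    congr 1
    funext k
    rw [ch_toNil, VC_coe, lf_apply]
  rw [e]
  refine contDiff_tsum_of_eventually (v := fun _ k => (1 / 2) ^ (k + 2)) ?_ ?_ ?_
  · intro k
    exact contDiff_const.mul ((contDiff_V k).comp (D.lf k).contDiff)
  · intro _ _
    exact summable_half
  · intro i hi
    rw [Nat.cofinite_eq_atTop]
    filter_upwards [eventually_ge_atTop i] with k hk v
    have e2 : (fun v => D.δ k * V k (D.lf k v)) = D.δ k • (V k ∘ D.lf k) := by
      funext v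
      rfl
    rw [e2]
    have hc : ContDiff ℝ i (V k) := (contDiff_V k).of_le (by exact_mod_cast le_top)
    have hc2 : ContDiff ℝ i (V k ∘ D.lf k) := hc.comp (D.lf k).contDiff
    rw [iteratedFDeriv_const_smul_apply hc2.contDiffAt, norm_smul, Real.norm_eq_abs]
    rw [ContinuousLinearMap.iteratedFDeriv_comp_right (D.lf k) hc v le_rfl]
    refine le_trans ?_ (D.small k i hk)
    rw [mul_assoc]
    refine mul_le_mul_of_nonneg_left ?_ (abs_nonneg _)
    refine (ContinuousMultilinearMap.norm_compContinuousLinearMap_le _ _).trans ?_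
    rw [Finset.prod_const, Finset.card_univ, Fintype.card_fin, norm_iteratedFDeriv_eq_norm_iteratedDeriv]
    gcongr
    · exact CV_nonneg k i
    · exact CV_spec k i _
    · exact D.lf_norm k

end Data

end Pool.Agent.W740.Nil
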