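import Pool.Agent.W740.Nil.Top

set_option autoImplicit false

open MeasureTheory Filter Topology Set
open scoped ContDiff

namespace Pool.Agent.W740.Nil

open Heis

instance : MeasurableSpace Heis := borel _
instance : BorelSpace Heis := ⟨rfl⟩

/-- Lebesgue measure. -/
noncomputable def vol : Measure Heis := Measure.map homeo.symm volume

theorem mp_homeo_symm : MeasurePreserving (homeo.symm : ℝ × ℝ × ℝ → Heis) volume vol :=
  ⟨homeo.symm.continuous.measurable, rfl⟩

theorem mp_homeo : MeasurePreserving (homeo : Heis → ℝ × ℝ × ℝ) vol volume :=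
  ⟨homeo.continuous.measurable, by
    unfold vol
    rw [Measure.map_map homeo.continuous.measurable homeo.symm.continuous.measurable]
    simp⟩

theorem mp_right3 (a b c : ℝ) : MeasurePreserving
    (fun p : ℝ × ℝ × ℝ => (p.1 + a, (p.2.1 + b, p.2.2 + (c + p.1 * b)))) volume volume := by
  refine MeasurePreserving.skew_product (g := fun x (q : ℝ × ℝ) => (q.1 + b, q.2 + (c + x * b)))
    (measurePreserving_add_right volume a) ?_ ?_
  · fun_prop
  · refine Eventually.of_forall fun x => ?_
    exact ((measurePreserving_add_right volume b).prod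
      (measurePreserving_add_right volume (c + x * b))).map_eq

theorem mp_left3 (a b c : ℝ) : MeasurePreserving
    (fun p : ℝ × ℝ × ℝ => (p.1 + a, (p.2.1 + b, p.2.2 + (c + a * p.2.1)))) volume volume := by
  refine MeasurePreserving.prod (f := fun x => x + a)
    (g := fun q : ℝ × ℝ => (q.1 + b, q.2 + (c + a * q.1))) (measurePreserving_add_right volume a) ?_
  refine MeasurePreserving.skew_product (g := fun y z => z + (c + a * y))
    (measurePreserving_add_right volume b) ?_ ?_
  · fun_prop
  · refine Eventually.of_forall fun x => ?_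
    exact (measurePreserving_add_right volume (c + a * x)).map_eq

theorem mp_right (h : Heis) : MeasurePreserving (fun g : Heis => g * h) vol vol := by
  have := (mp_homeo_symm.comp (mp_right3 h.x h.y h.z)).comp mp_homeo
  have e : (fun g : Heis => g * h) = ((homeo.symm : ℝ × ℝ × ℝ → Heis) ∘
      (fun p : ℝ × ℝ × ℝ => (p.1 + h.x, (p.2.1 + h.y, p.2.2 + (h.z + p.1 * h.y))))) ∘ homeo := by
    funext g
    apply Heis.ext
    · rfl
    · rfl
    · show g.z + h.z + g.x * h.y = g.z + (h.z + g.x * h.y)
      ring
  rw [e]
  exact this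

theorem mp_left (h : Heis) : MeasurePreserving (fun g : Heis => h * g) vol vol := by
  have := (mp_homeo_symm.comp (mp_left3 h.x h.y h.z)).comp mp_homeo
  have e : (fun g : Heis => h * g) = ((homeo.symm : ℝ × ℝ × ℝ → Heis) ∘
      (fun p : ℝ × ℝ × ℝ => (p.1 + h.x, (p.2.1 + h.y, p.2.2 + (h.z + h.x * p.2.1))))) ∘ homeo := by
    funext g
    apply Heis.ext
    · show h.x + g.x = g.x + h.x
      ring
    · show h.y + g.y = g.y + h.y
      ring
    · show h.z + g.z + h.x * g.y = g.z + (h.z + h.x * g.y)
      ring
  rw [e]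
  exact this

instance : MeasurableConstSMul lattice Heis where
  measurable_const_smul γ := (continuous_const_smul γ).measurable

instance : SMulInvariantMeasure lattice Heis vol where
  measure_preimage_smul γ _ hs := (mp_left (γ : Heis)).measure_preimage hs.nullMeasurableSet

/-- The half open unit cube. -/
def cube : Set Heis := {g | g.x ∈ Ioc (0 : ℝ) 1 ∧ g.y ∈ Ioc (0 : ℝ) 1 ∧ g.z ∈ Ioc (0 : ℝ) 1}

theorem measurableSet_cube : MeasurableSet cube := by
  refine MeasurableSet.inter ?_ (MeasurableSet.inter ?_ ?_)
  · exact continuous_x.measurable measurableSet_Ioc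
  · exact continuous_y.measurable measurableSet_Ioc
  · exact continuous_z.measurable measurableSet_Ioc

theorem int_eq_of_Ioc {n m : ℤ} {t : ℝ} (h1 : (n : ℝ) + t ∈ Ioc (0 : ℝ) 1)
    (h2 : (m : ℝ) + t ∈ Ioc (0 : ℝ) 1) : n = m := by
  obtain ⟨h1, h1'⟩ := h1
  obtain ⟨h2, h2'⟩ := h2
  have h3 : (n : ℝ) < m + 1 := by linarith
  have h4 : (m : ℝ) < n + 1 := by linarith
  have h3' : n < m + 1 := by exact_mod_cast h3
  have h4' : m < n + 1 := by exact_mod_cast h4
  omega

theorem exists_unique_rep (g : Heis) : ∃! γ : lattice, γ • g ∈ cube := by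
  obtain ⟨a, b, c, h⟩ := exists_rep g
  refine ⟨lat a b c, h, ?_⟩
  intro γ hγ
  obtain ⟨a', b', c', rfl⟩ := lat_surj γ
  obtain ⟨h1, h2, h3⟩ := h
  obtain ⟨h1', h2', h3'⟩ := hγ
  have ea : a' = a := int_eq_of_Ioc (t := g.x) h1' h1
  have eb : b' = b := int_eq_of_Ioc (t := g.y) h2' h2
  subst ea eb
  have ec : c' = c := by
    refine int_eq_of_Ioc (t := g.z + a' * g.y) ?_ ?_
    · have : (c' : ℝ) + (g.z + a' * g.y) = (lat a' b' c' • g).z := by
        show _ = c' + g.z + a' * g.y
        ring
      rw [this]
      exact h3'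
    · have : (c : ℝ) + (g.z + a' * g.y) = (lat a' b' c • g).z := by
        show _ = c + g.z + a' * g.y
        ring
      rw [this]
      exact h3
  rw [ec]

theorem isFundamentalDomain_cube : IsFundamentalDomain lattice cube vol :=
  IsFundamentalDomain.mk' measurableSet_cube.nullMeasurableSet exists_unique_rep

theorem isFundamentalDomain_cube_mul (h : Heis) :
    IsFundamentalDomain lattice ((fun g => g * h) ⁻¹' cube) vol := by
  refine IsFundamentalDomain.mk' ?_ ?_
  · exact ((mp_right h).measurable measurableSet_cube).nullMeasurableSet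
  · intro g
    have e : ∀ γ : lattice, γ • (g * h) = (γ • g) * h := fun γ => by
      rw [smul_def', smul_def', mul_assoc]
    have := exists_unique_rep (g * h)
    simp only [e] at this
    exact this

theorem vol_cube : vol cube = 1 := by
  have e : cube = homeo ⁻¹' (Ioc (0 : ℝ) 1 ×ˢ (Ioc (0 : ℝ) 1 ×ˢ Ioc (0 : ℝ) 1)) := by
    ext g
    rfl
  rw [e, mp_homeo.measure_preimage (by measurability)]
  rw [Measure.volume_eq_prod, Measure.prod_prod, Measure.volume_eq_prod, Measure.prod_prod]
  simp

/-- The normalised Haar measure. -/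
noncomputable def haar : Measure Nilmanifold := Measure.map toNil (vol.restrict cube)

theorem measurable_toNil : Measurable toNil := continuous_toNil.measurable

instance : IsProbabilityMeasure (vol.restrict cube) := ⟨by simp [vol_cube]⟩

instance : IsProbabilityMeasure haar := Measure.isProbabilityMeasure_map measurable_toNil.aemeasurable

theorem toNil_smul (γ : lattice) (g : Heis) : toNil (γ • g) = toNil g := by
  rw [toNil_eq_iff]
  exact ⟨γ, rfl⟩

theorem mp_rtr (h : Heis) : MeasurePreserving (rtr h) haar haar := by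
  refine ⟨(continuous_rtr h).measurable, ?_⟩
  ext A hA
  rw [Measure.map_apply (continuous_rtr h).measurable hA]
  unfold haar
  rw [Measure.map_apply measurable_toNil ((continuous_rtr h).measurable hA),
    Measure.map_apply measurable_toNil hA,
    Measure.restrict_apply (measurable_toNil ((continuous_rtr h).measurable hA)),
    Measure.restrict_apply (measurable_toNil hA)]
  set B := toNil ⁻¹' A with hB
  have hBm : MeasurableSet B := measurable_toNil hA
  have e : toNil ⁻¹' (rtr h ⁻¹' A) ∩ cube =
      (fun g => g * h) ⁻¹' (B ∩ (fun g => g * h⁻¹) ⁻¹' cube) := by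
    ext g
    simp [hB]
  rw [e, (mp_right h).measure_preimage
    (hBm.inter ((mp_right h⁻¹).measurable measurableSet_cube)).nullMeasurableSet]
  refine IsFundamentalDomain.measure_set_eq (isFundamentalDomain_cube_mul h⁻¹)
    isFundamentalDomain_cube hBm ?_
  intro γ
  ext g
  simp only [hB, mem_preimage, toNil_smul]

theorem isHaarProb_haar : IsHaarProb haar := ⟨inferInstance, mp_rtr⟩

end Pool.Agent.W740.Nil
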