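import Pool.Agent.W740.Nil.Eigen

set_option autoImplicit false

open MeasureTheory Filter Topology Set
open scoped ContDiff

namespace Pool.Agent.W740.Nil

open Heis

namespace Data

variable (D : Data)

theorem continuous_tau_left (a : ℝ) : Continuous (fun p => D.tau p a) := by
  unfold tau
  refine intervalIntegral.continuous_parametric_intervalIntegral_of_continuous' ?_ 0 a
  exact D.continuous_al.comp (D.continuous_fl_prod.comp (continuous_snd.prodMk continuous_fst))

theorem rt_lt_iff (p : Nilmanifold) (t a : ℝ) : D.rt p t < a ↔ t < D.tau p a := by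
  rw [← (D.strictMono_tau p).lt_iff_lt, tau_rt]

theorem rt_tau (p : Nilmanifold) (r : ℝ) : D.rt p (D.tau p r) = r := by
  apply (D.strictMono_tau p).injective
  rw [tau_rt]

theorem measurable_rt (t : ℝ) : Measurable (fun p => D.rt p t) := by
  refine measurable_of_Iio fun a => ?_
  have : (fun p => D.rt p t) ⁻¹' Iio a = {p | t < D.tau p a} := by
    ext p
    exact D.rt_lt_iff p t a
  rw [this]
  exact (isOpen_lt continuous_const (D.continuous_tau_left a)).measurableSet

theorem measurable_ps (t : ℝ) : Measurable (D.ps t) :=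
  D.continuous_fl_prod.measurable.comp ((D.measurable_rt t).prodMk measurable_id)

theorem continuous_rt (p : Nilmanifold) : Continuous (D.rt p) := by
  have : D.rt p = ((D.strictMono_tau p).orderIsoOfSurjective (D.tau p) (D.surj_tau p)).symm := by
    funext t
    symm
    rw [OrderIso.symm_apply_eq]
    exact (D.tau_rt p t).symm
  rw [this]
  exact OrderIso.continuous _

theorem continuous_ps (p : Nilmanifold) : Continuous (fun u => D.ps u p) := by
  unfold ps
  exact D.continuous_fl_prod.comp ((D.continuous_rt p).prodMk continuous_const)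

theorem fl_eq_ps (p : Nilmanifold) (r : ℝ) : D.fl r p = D.ps (D.tau p r) p := by
  unfold ps
  rw [rt_tau]

theorem hasDerivAt_tau (p : Nilmanifold) (r : ℝ) : HasDerivAt (D.tau p) (D.al (D.fl r p)) r := by
  have h : D.tau p = fun r => r + ∑' k, D.inc k r p := by
    funext r
    exact D.tau_eq p r
  rw [h]
  exact (hasDerivAt_id r).add (D.hasDerivAt_inc p r)

theorem subst (f : Nilmanifold → ℝ) (hf : Continuous f) (p : Nilmanifold) (t T : ℝ) :
    ∫ r in (0 : ℝ)..T, f (D.ps t (D.fl r p)) * D.al (D.fl r p) =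
      ∫ u in t..(t + D.tau p T), f (D.ps u p) := by
  have h := intervalIntegral.integral_comp_mul_deriv (a := 0) (b := T)
    (f := fun r => t + D.tau p r) (f' := fun r => D.al (D.fl r p)) (g := fun u => f (D.ps u p))
    (fun x _ => (D.hasDerivAt_tau p x).const_add t) (D.continuous_al_fl p).continuousOn
    (hf.comp (D.continuous_ps p))
  have e0 : t + D.tau p 0 = t := by simp [tau]
  rw [e0] at h
  rw [← h]
  refine intervalIntegral.integral_congr fun r _ => ?_
  simp only [Function.comp]
  rw [ps_add, ← fl_eq_ps]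

theorem diff_le (f : Nilmanifold → ℝ) (hf : Continuous f) {B : ℝ} (hB : ∀ p, |f p| ≤ B)
    (p : Nilmanifold) (t T : ℝ) :
    |(∫ r in (0 : ℝ)..T, f (D.ps t (D.fl r p)) * D.al (D.fl r p)) -
      ∫ r in (0 : ℝ)..T, f (D.fl r p) * D.al (D.fl r p)| ≤ 2 * (B * |t|) := by
  have h0 : ∫ r in (0 : ℝ)..T, f (D.fl r p) * D.al (D.fl r p) =
      ∫ u in (0 : ℝ)..(D.tau p T), f (D.ps u p) := by
    have := D.subst f hf p 0 T
    simp only [ps_zero, zero_add] at this
    exact this
  rw [h0, D.subst f hf p t T]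
  set h : ℝ → ℝ := fun u => f (D.ps u p) with hh
  have hc : Continuous h := hf.comp (D.continuous_ps p)
  have hi : ∀ a b, IntervalIntegrable h volume a b := fun a b => hc.intervalIntegrable _ _
  have h1 := intervalIntegral.integral_add_adjacent_intervals (hi 0 t) (hi t (t + D.tau p T))
  have h2 := intervalIntegral.integral_add_adjacent_intervals (hi 0 (D.tau p T))
    (hi (D.tau p T) (t + D.tau p T))
  have h3 : (∫ u in t..(t + D.tau p T), h u) - (∫ u in (0 : ℝ)..(D.tau p T), h u) =
      (∫ u in (D.tau p T)..(t + D.tau p T), h u) - ∫ u in (0 : ℝ)..t, h u := by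
    linarith
  rw [h3]
  have hb : ∀ a b, |∫ u in a..b, h u| ≤ B * |b - a| := fun a b => by
    have := intervalIntegral.norm_integral_le_of_norm_le_const (a := a) (b := b) (f := h) (C := B)
      (fun x _ => hB _)
    exact this
  have h4 := hb (D.tau p T) (t + D.tau p T)
  have h5 := hb 0 t
  rw [add_sub_cancel_right] at h4
  rw [sub_zero] at h5
  refine (abs_sub _ _).trans ?_
  linarith

theorem average (Φ : Nilmanifold → ℝ) (hΦ : Measurable Φ) {C : ℝ} (hC : ∀ p, |Φ p| ≤ C)
    {T : ℝ} (hT : 0 ≤ T) :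
    Integrable (fun p => ∫ r in (0 : ℝ)..T, Φ (D.fl r p)) haar ∧
    ∫ p, (∫ r in (0 : ℝ)..T, Φ (D.fl r p)) ∂haar = T * ∫ p, Φ p ∂haar := by
  have hint : Integrable (fun q : Nilmanifold × ℝ => Φ (D.fl q.2 q.1))
      (haar.prod (volume.restrict (Ioc (0 : ℝ) T))) := by
    refine Integrable.of_bound (C := C) ?_ ?_
    · exact (hΦ.comp (D.continuous_fl_prod.measurable.comp
        (measurable_snd.prodMk measurable_fst))).aestronglyMeasurable
    · exact Eventually.of_forall fun q => hC _
  simp only [intervalIntegral.integral_of_le hT]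
  refine ⟨hint.integral_prod_left, ?_⟩
  rw [integral_integral_swap hint]
  have e : ∀ r, ∫ p, Φ (D.fl r p) ∂haar = ∫ p, Φ p ∂haar := by
    intro r
    conv_rhs => rw [← (D.mp_fl r).map_eq]
    rw [integral_map (D.mp_fl r).measurable.aemeasurable hΦ.aestronglyMeasurable]
  simp only [e]
  rw [setIntegral_const]
  simp [hT]

theorem inv_integral (f : Nilmanifold → ℝ) (hf : Continuous f) {B : ℝ} (hB : ∀ p, |f p| ≤ B)
    (t : ℝ) : ∫ p, f (D.ps t p) * D.al p ∂haar = ∫ p, f p * D.al p ∂haar := by
  have hB0 : 0 ≤ B := (abs_nonneg _).trans (hB (toNil 1))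
  have hal : ∀ p, |D.al p| ≤ 3 / 2 := fun p => by
    rw [abs_of_pos (D.al_pos p)]
    exact D.al_le p
  have hbd : ∀ x y : ℝ, |x| ≤ B → |y| ≤ 3 / 2 → |x * y| ≤ B * (3 / 2) := fun x y hx hy => by
    rw [abs_mul]
    exact mul_le_mul hx hy (abs_nonneg _) hB0
  set I1 := ∫ p, f (D.ps t p) * D.al p ∂haar with hI1
  set I2 := ∫ p, f p * D.al p ∂haar with hI2
  have key : ∀ T : ℝ, 0 ≤ T → T * |I1 - I2| ≤ 2 * (B * |t|) := by
    intro T hT
    obtain ⟨i1, e1⟩ := D.average (fun p => f (D.ps t p) * D.al p)
      ((hf.measurable.comp (D.measurable_ps t)).mul D.continuous_al.measurable)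
      (fun p => hbd _ _ (hB _) (hal p)) hT
    obtain ⟨i2, e2⟩ := D.average (fun p => f p * D.al p)
      (hf.measurable.mul D.continuous_al.measurable) (fun p => hbd _ _ (hB _) (hal p)) hT
    have e3 : T * (I1 - I2) = ∫ p, ((∫ r in (0 : ℝ)..T, f (D.ps t (D.fl r p)) * D.al (D.fl r p)) -
        ∫ r in (0 : ℝ)..T, f (D.fl r p) * D.al (D.fl r p)) ∂haar := by
      rw [integral_sub i1 i2, e1, e2]
      ring
    have e4 : T * |I1 - I2| = |T * (I1 - I2)| := by
      rw [abs_mul, abs_of_nonneg hT]
    rw [e4, e3, ← Real.norm_eq_abs]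
    refine (norm_integral_le_of_norm_le_const (C := 2 * (B * |t|)) (Eventually.of_forall fun p => ?_)).trans
      (by simp)
    exact D.diff_le f hf hB p t T
  by_contra hne
  have hpos : 0 < |I1 - I2| := abs_pos.mpr (sub_ne_zero.mpr hne)
  have h1 := key ((2 * (B * |t|) + 1) / |I1 - I2|) (by positivity)
  rw [div_mul_cancel₀ _ hpos.ne'] at h1
  linarith

/-- the density measure -/
noncomputable def dm : Measure Nilmanifold := haar.withDensity (fun x => ENNReal.ofReal (D.al x))

instance : IsFiniteMeasure D.dm := by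
  refine isFiniteMeasure_withDensity ?_
  refine ne_top_of_le_ne_top (b := ∫⁻ _, ENNReal.ofReal (3 / 2) ∂haar) (by simp) ?_
  exact lintegral_mono fun p => ENNReal.ofReal_le_ofReal (D.al_le p)

theorem mp_ps_dm (t : ℝ) : MeasurePreserving (D.ps t) D.dm D.dm := by
  refine ⟨D.measurable_ps t, ?_⟩
  have : IsFiniteMeasure (Measure.map (D.ps t) D.dm) := inferInstance
  apply ext_of_forall_integral_eq_of_IsFiniteMeasure
  intro f
  rw [integral_map (D.measurable_ps t).aemeasurable f.continuous.measurable.aestronglyMeasurable]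
  have hm : Measurable (fun x => ENNReal.ofReal (D.al x)) :=
    D.continuous_al.measurable.ennreal_ofReal
  unfold dm
  rw [integral_withDensity_eq_integral_toReal_smul hm (Eventually.of_forall fun _ =>
    ENNReal.ofReal_lt_top), integral_withDensity_eq_integral_toReal_smul hm
    (Eventually.of_forall fun _ => ENNReal.ofReal_lt_top)]
  have e : ∀ x, (ENNReal.ofReal (D.al x)).toReal = D.al x := fun x =>
    ENNReal.toReal_ofReal (D.al_pos x).le
  simp only [e, smul_eq_mul]
  have h := D.inv_integral f f.continuous (B := ‖f‖) (fun p => f.norm_coe_le_norm p) t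
  simp only [mul_comm (D.al _)]
  exact h

theorem total_eq : (∫⁻ x, ENNReal.ofReal (D.al x) ∂haar) = D.dm univ := by
  unfold dm
  rw [withDensity_apply _ MeasurableSet.univ, Measure.restrict_univ]

theorem dm_univ_ne_zero : D.dm univ ≠ 0 := by
  rw [← total_eq]
  have h : ∫⁻ _, ENNReal.ofReal (1 / 2) ∂haar ≤ ∫⁻ x, ENNReal.ofReal (D.al x) ∂haar :=
    lintegral_mono fun p => ENNReal.ofReal_le_ofReal (D.al_ge p)
  rw [lintegral_const, measure_univ, mul_one] at h
  have : (0 : ENNReal) < ENNReal.ofReal (1 / 2) := by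
    rw [ENNReal.ofReal_pos]
    norm_num
  exact (lt_of_lt_of_le this h).ne'

/-- the invariant measure -/
noncomputable def nu : Measure Nilmanifold := tcMeasure haar D.al

theorem nu_eq : D.nu = (D.dm univ)⁻¹ • D.dm := by
  unfold nu tcMeasure
  rw [total_eq]
  rfl

instance : IsProbabilityMeasure D.nu := by
  refine ⟨?_⟩
  rw [nu_eq, Measure.smul_apply, smul_eq_mul]
  exact ENNReal.inv_mul_cancel D.dm_univ_ne_zero (measure_ne_top _ _)

theorem mp_ps (t : ℝ) : MeasurePreserving (D.ps t) D.nu D.nu := by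
  rw [nu_eq]
  refine ⟨D.measurable_ps t, ?_⟩
  rw [Measure.map_smul, (D.mp_ps_dm t).map_eq]

theorem nu_ac : D.nu ≪ haar := by
  rw [nu_eq]
  exact (Measure.smul_absolutelyContinuous).trans (withDensity_absolutelyContinuous _ _)

theorem ae_good_nu : ∀ᵐ p ∂D.nu, p ∈ D.good := D.nu_ac.ae_le D.ae_good

/-- The eigenfunction sends the invariant measure to Lebesgue measure. -/
theorem mp_ef : MeasurePreserving D.ef D.nu volume := by
  refine ⟨D.measurable_ef, ?_⟩
  have : IsProbabilityMeasure (Measure.map D.ef D.nu) :=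
    Measure.isProbabilityMeasure_map D.measurable_ef.aemeasurable
  refine circle_eq_volume _ fun v => ⟨measurable_add_const _, ?_⟩
  obtain ⟨t, rfl⟩ := QuotientAddGroup.mk_surjective v
  rw [Measure.map_map (measurable_add_const _) D.measurable_ef]
  conv_rhs => rw [← (D.mp_ps t).map_eq]
  rw [Measure.map_map D.measurable_ef (D.measurable_ps t)]
  refine Measure.map_congr ?_
  filter_upwards [D.ae_good_nu] with p hp
  exact (D.good_ps hp t).2.symm

end Data

end Pool.Agent.W740.Nil
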