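import Pool.Agent.W740.Nil.Flow

set_option autoImplicit false

open MeasureTheory Filter Topology Set
open scoped ContDiff

namespace Pool.Agent.W740.Nil

open Heis

/-- Uniqueness of the translation invariant probability measure on the circle. -/
theorem circle_eq_volume (ρ : Measure UnitAddCircle) [IsProbabilityMeasure ρ]
    (h : ∀ v : UnitAddCircle, MeasurePreserving (fun p : UnitAddCircle => p + v) ρ ρ) :
    ρ = volume := by
  have : ρ.IsAddLeftInvariant := ⟨fun v => by
    have := (h v).map_eq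
    simpa only [add_comm] using this⟩
  have : ρ.IsAddHaarMeasure := by
    refine Measure.isAddHaarMeasure_of_isCompact_nonempty_interior ρ univ isCompact_univ ?_ ?_ ?_
    · simp
    · simp
    · simp
  exact Measure.isAddHaarMeasure_eq_of_isProbabilityMeasure _ _

namespace Data

variable (D : Data)

theorem mp_ch (k : ℕ) : MeasurePreserving (D.ch k) haar volume := by
  have hm : Measurable (D.ch k) := (D.continuous_ch k).measurable
  refine ⟨hm, ?_⟩
  have : IsProbabilityMeasure (Measure.map (D.ch k) haar) :=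
    Measure.isProbabilityMeasure_map hm.aemeasurable
  refine circle_eq_volume _ fun v => ⟨measurable_add_const _, ?_⟩
  obtain ⟨s, rfl⟩ := QuotientAddGroup.mk_surjective v
  rw [Measure.map_map (measurable_add_const _) hm]
  have hq : (D.q k : ℝ) ≠ 0 := by
    have := D.hq k
    have h2 : D.q k ≠ 0 := by omega
    exact_mod_cast h2
  conv_rhs => rw [← (mp_rtr ⟨0, s / D.q k, 0⟩).map_eq]
  rw [Measure.map_map hm (mp_rtr _).measurable]
  congr 1
  funext p
  show D.ch k p + _ = D.ch k (rtr _ p)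
  rw [ch_rtr]
  congr 2
  simp
  field_simp

/-- lower bound for the measure of an arc -/
theorem arc_le {a b : ℝ} (ha : 0 < a) (hb : b ≤ 1) {S : Set UnitAddCircle} (hS : MeasurableSet S)
    (h : ∀ s ∈ Icc a b, (s : UnitAddCircle) ∈ S) : ENNReal.ofReal (b - a) ≤ volume S := by
  have h1 := (UnitAddCircle.measurePreserving_mk 0).measure_preimage hS.nullMeasurableSet
  rw [← h1, Measure.restrict_apply]
  · rw [← Real.volume_Icc]
    refine measure_mono fun s hs => ⟨h s hs, ?_, ?_⟩
    · linarith [hs.1]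
    · linarith [hs.2]
  · exact AddCircle.measurable_mk' hS

theorem sin_lower {s : ℝ} (h1 : 1 / 12 ≤ s) (h2 : s ≤ 5 / 12) : 1 / 2 ≤ Real.sin (2 * Real.pi * s) := by
  have hpi := Real.pi_pos
  rcases le_total s (1 / 4) with h | h
  · have : Real.sin (Real.pi / 6) ≤ Real.sin (2 * Real.pi * s) := by
      apply Real.sin_le_sin_of_le_of_le_pi_div_two <;> nlinarith
    rwa [Real.sin_pi_div_six] at this
  · have : Real.sin (Real.pi / 6) ≤ Real.sin (Real.pi - 2 * Real.pi * s) := by
      apply Real.sin_le_sin_of_le_of_le_pi_div_two <;> nlinarith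
    rwa [Real.sin_pi_div_six, Real.sin_pi_sub] at this

theorem sin_half (s : ℝ) : Real.sin (2 * Real.pi * (s + 1 / 2)) = -Real.sin (2 * Real.pi * s) := by
  rw [show 2 * Real.pi * (s + 1 / 2) = 2 * Real.pi * s + Real.pi by ring, Real.sin_add_pi]

theorem pow_le_half (k : ℕ) : (1 / 2 : ℝ) ^ (k + 1) ≤ 1 / 2 := by
  rw [pow_succ]
  have : (1 / 2 : ℝ) ^ k ≤ 1 := pow_le_one₀ (by norm_num) (by norm_num)
  linarith

theorem U_jump_up {k : ℕ} {s : ℝ} (h1 : 7 / 12 ≤ s) (h2 : s ≤ 11 / 12) :
    U k s = 0 ∧ U k (s + 1 / 2) = 4 ^ k := by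
  have h3 : 1 / 2 ≤ Real.sin (2 * Real.pi * (s - 1 / 2)) := sin_lower (by linarith) (by linarith)
  have h4 := sin_half (s - 1 / 2)
  have h5 := sin_half s
  rw [sub_add_cancel] at h4
  constructor
  · apply U_of_sin_le
    linarith
  · apply U_of_le_sin
    have := pow_le_half k
    linarith

theorem U_jump_down {k : ℕ} {s : ℝ} (h1 : 1 / 12 ≤ s) (h2 : s ≤ 5 / 12) :
    U k s = 4 ^ k ∧ U k (s + 1 / 2) = 0 := by
  have h3 : 1 / 2 ≤ Real.sin (2 * Real.pi * s) := sin_lower (by linarith) (by linarith)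
  have h5 := sin_half s
  constructor
  · apply U_of_le_sin
    have := pow_le_half k
    linarith
  · apply U_of_sin_le
    linarith

/-- the times -/
noncomputable def tj (j : ℕ) : ℝ := 1 / (2 * |D.δ j|)

theorem tj_pos (j : ℕ) : 0 < D.tj j := by
  have := D.δ_pos j
  unfold tj
  positivity

theorem coe_half (j : ℕ) : ((D.tj j * D.δ j : ℝ) : UnitAddCircle) = ((1 / 2 : ℝ) : UnitAddCircle) := by
  have h0 := D.δ_pos j
  rcases abs_choice (D.δ j) with h | h
  · congr 1
    unfold tj
    rw [h] at h0 ⊢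
    field_simp
  · have e : D.tj j * D.δ j = 1 / 2 + (-1 : ℤ) := by
      unfold tj
      have h1 := D.δ_ne j
      rw [h]
      field_simp
      push_cast
      ring
    rw [e, AddCircle.coe_add, coe_int, add_zero]

theorem δ_succ_le (k : ℕ) : |D.δ (k + 1)| ≤ |D.δ k| := by
  have h1 := D.δ_rat k
  have h2 := CV_nonneg (k + 1) 0
  have h3 := D.δ_pos (k + 1)
  have h4 := D.δ_pos k
  have h5 : (1 / 2 : ℝ) ^ (k + 1) ≤ 1 := pow_le_one₀ (by norm_num) (by norm_num)
  nlinarith

theorem δ_anti : Antitone fun k => |D.δ k| := antitone_nat_of_succ_le D.δ_succ_le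

theorem inc_big (j k : ℕ) (hk : j < k) (p : Nilmanifold) :
    |D.inc k (D.tj j) p| ≤ (1 / 2) ^ (k + 1) := by
  refine (D.inc_le _ _ _).trans ?_
  obtain ⟨i, rfl⟩ : ∃ i, k = i + 1 := ⟨k - 1, by omega⟩
  have h1 := D.δ_rat i
  have h2 : |D.δ i| ≤ |D.δ j| := D.δ_anti (by omega)
  have h3 := D.δ_pos (i + 1)
  have h4 := D.δ_pos j
  rw [abs_of_pos (D.tj_pos j)]
  have h5 : |D.δ (i + 1)| * CV (i + 1) 0 ≤ (1 / 2) ^ (i + 1) * |D.δ j| := by
    have : (1 / 2 : ℝ) ^ (i + 1) * |D.δ i| ≤ (1 / 2) ^ (i + 1) * |D.δ j| := by gcongr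
    nlinarith
  calc D.tj j * (|D.δ (i + 1)| * CV (i + 1) 0) ≤ D.tj j * ((1 / 2) ^ (i + 1) * |D.δ j|) :=
        mul_le_mul_of_nonneg_left h5 (D.tj_pos j).le
    _ = _ := by
      unfold tj
      rw [pow_succ (1 / 2 : ℝ) (i + 1)]
      field_simp

theorem inc_small (j k : ℕ) (p : Nilmanifold) : |D.inc k (D.tj j) p| ≤ 4 ^ k := by
  unfold inc
  obtain ⟨x, hx⟩ := QuotientAddGroup.mk_surjective (D.ch k (D.fl (D.tj j) p))
  obtain ⟨y, hy⟩ := QuotientAddGroup.mk_surjective (D.ch k p)
  rw [← hx, ← hy]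
  show |U k x - U k y| ≤ 4 ^ k
  rw [abs_le]
  have h1 := U_nonneg k x
  have h2 := U_nonneg k y
  have h3 := U_le k x
  have h4 := U_le k y
  constructor <;> linarith

theorem sum_rest (j : ℕ) (p : Nilmanifold) :
    |∑' k, D.inc k (D.tj j) p - D.inc j (D.tj j) p| ≤ 4 ^ j / 3 + 1 := by
  have h1 := (D.summable_inc (D.tj j) p).tsum_eq_add_tsum_ite j
  rw [h1, add_sub_cancel_left, ← Real.norm_eq_abs]
  have hs1 : HasSum (fun k => if k ∈ Finset.range j then (4 : ℝ) ^ k else 0)
      (∑ k ∈ Finset.range j, (if k ∈ Finset.range j then (4 : ℝ) ^ k else 0)) :=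
    hasSum_sum_of_ne_finset_zero fun k hk => if_neg hk
  have hs2 : HasSum (fun k : ℕ => (1 / 2 : ℝ) ^ (k + 1)) 1 := by
    have := (hasSum_geometric_two).mul_right (1 / 2 : ℝ)
    simp only [← pow_succ] at this
    norm_num at this
    simpa using this
  have hs := hs1.add hs2
  have e : ∑ k ∈ Finset.range j, (if k ∈ Finset.range j then (4 : ℝ) ^ k else 0) =
      (4 ^ j - 1) / 3 := by
    rw [Finset.sum_congr rfl fun k hk => if_pos hk, geom_sum_eq (by norm_num)]
    norm_num
  rw [e] at hs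
  refine (tsum_of_norm_bounded hs fun k => ?_).trans ?_
  · by_cases hkj : k = j
    · rw [if_pos hkj]
      simp
      split_ifs <;> positivity
    · rw [if_neg hkj]
      rcases lt_or_gt_of_ne hkj with h | h
      · rw [if_pos (Finset.mem_range.mpr h)]
        have := D.inc_small j k p
        have h2 : (0 : ℝ) < (1 / 2) ^ (k + 1) := by positivity
        rw [Real.norm_eq_abs]
        linarith
      · rw [if_neg (by simp; omega), zero_add]
        exact D.inc_big j k h p
  · linarith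

/-- the sum jumps up -/
theorem jump_up (j : ℕ) (p : Nilmanifold)
    (hp : D.ch j p ∈ (fun s : ℝ => (s : UnitAddCircle)) '' Icc (7 / 12) (11 / 12)) :
    4 ^ j * (2 / 3) - 1 ≤ ∑' k, D.inc k (D.tj j) p := by
  obtain ⟨s, hs, hsp⟩ := hp
  have h1 := abs_le.mp (D.sum_rest j p)
  have h2 : D.inc j (D.tj j) p = 4 ^ j := by
    unfold inc
    rw [ch_fl, coe_half, ← hsp]
    simp only [← AddCircle.coe_add, UC_coe]
    obtain ⟨h3, h4⟩ := U_jump_up (k := j) hs.1 hs.2
    rw [h3, h4, sub_zero]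
  rw [h2] at h1
  linarith [h1.1]

theorem jump_down (j : ℕ) (p : Nilmanifold)
    (hp : D.ch j p ∈ (fun s : ℝ => (s : UnitAddCircle)) '' Icc (1 / 12) (5 / 12)) :
    ∑' k, D.inc k (D.tj j) p ≤ -(4 ^ j * (2 / 3) - 1) := by
  obtain ⟨s, hs, hsp⟩ := hp
  have h1 := abs_le.mp (D.sum_rest j p)
  have h2 : D.inc j (D.tj j) p = -4 ^ j := by
    unfold inc
    rw [ch_fl, coe_half, ← hsp]
    simp only [← AddCircle.coe_add, UC_coe]
    obtain ⟨h3, h4⟩ := U_jump_down (k := j) hs.1 hs.2
    rw [h3, h4, zero_sub]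
  rw [h2] at h1
  linarith [h1.2]

theorem measure_arc (j : ℕ) {a b : ℝ} (ha : 0 < a) (hb : b ≤ 1) : ENNReal.ofReal (b - a) ≤
    haar (D.ch j ⁻¹' ((fun s : ℝ => (s : UnitAddCircle)) '' Icc a b)) := by
  have hm : MeasurableSet ((fun s : ℝ => (s : UnitAddCircle)) '' Icc a b) :=
    (isCompact_Icc.image (AddCircle.continuous_mk' 1)).isClosed.measurableSet
  rw [(D.mp_ch j).measure_preimage hm.nullMeasurableSet]
  exact arc_le ha hb hm fun s hs => ⟨s, hs, rfl⟩

theorem not_trivial : ¬ MeasurablyTrivial (nilflow (1, D.θ, 0)) haar D.al := by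
  rintro ⟨c, u, hu, h⟩
  -- tightness
  have htight : ∃ M : ℕ, haar {p | (M : ℝ) < |u p|} < ENNReal.ofReal (1 / 10) := by
    have h1 : Tendsto (fun M : ℕ => haar {p | (M : ℝ) < |u p|}) atTop
        (𝓝 (haar (⋂ M : ℕ, {p | (M : ℝ) < |u p|}))) := by
      refine tendsto_measure_iInter_atTop ?_ ?_ ⟨0, measure_ne_top _ _⟩
      · intro M
        exact (measurableSet_lt measurable_const hu.abs).nullMeasurableSet
      · intro M N hMN p hp
        have : (M : ℝ) ≤ N := by exact_mod_cast hMN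
        exact lt_of_le_of_lt this hp
    have h2 : (⋂ M : ℕ, {p | (M : ℝ) < |u p|}) = ∅ := by
      rw [eq_empty_iff_forall_notMem]
      intro p hp
      obtain ⟨M, hM⟩ := exists_nat_ge |u p|
      have := mem_iInter.mp hp M
      simp only [mem_ofPred_eq] at this
      linarith
    rw [h2, measure_empty] at h1
    exact (h1.eventually_lt_const (by simp)).exists
  obtain ⟨M, hM⟩ := htight
  obtain ⟨j, hj⟩ := pow_unbounded_of_one_lt ((2 * M + 1) * (3 / 2) : ℝ) (by norm_num : (1 : ℝ) < 4)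
  have hj' : 2 * (M : ℝ) < 4 ^ j * (2 / 3) - 1 := by linarith
  have hform : ∀ᵐ p ∂haar, u (D.fl (D.tj j) p) - u p = (1 - c) * D.tj j +
      ∑' k, D.inc k (D.tj j) p := by
    filter_upwards [h (D.tj j)] with p hp
    have e : ∫ s in (0 : ℝ)..(D.tj j), (D.al (D.fl s p) - c) = D.tau p (D.tj j) - c * D.tj j := by
      rw [intervalIntegral.integral_sub ((D.continuous_al_fl p).intervalIntegrable _ _)
        (by simp)]
      simp [tau]
      ring
    have hp' : u (D.fl (D.tj j) p) - u p = ∫ s in (0 : ℝ)..(D.tj j), (D.al (D.fl s p) - c) := hp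
    rw [hp', e, tau_eq]
    ring
  set A : Set Nilmanifold := {p | 2 * (M : ℝ) < |u (D.fl (D.tj j) p) - u p|} with hA
  have hAle : haar A ≤ ENNReal.ofReal (2 / 10) := by
    have h1 : A ⊆ {p | (M : ℝ) < |u p|} ∪ D.fl (D.tj j) ⁻¹' {p | (M : ℝ) < |u p|} := by
      intro p hp
      by_contra hcon
      rw [mem_union, not_or] at hcon
      obtain ⟨h3, h4⟩ := hcon
      simp only [mem_preimage, mem_ofPred_eq, not_lt] at h3 h4
      have h5 := abs_sub (u (D.fl (D.tj j) p)) (u p)
      simp only [hA, mem_ofPred_eq] at hp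
      linarith
    refine (measure_mono h1).trans ((measure_union_le _ _).trans ?_)
    rw [(D.mp_fl _).measure_preimage (measurableSet_lt measurable_const hu.abs).nullMeasurableSet]
    calc _ ≤ ENNReal.ofReal (1 / 10) + ENNReal.ofReal (1 / 10) := add_le_add hM.le hM.le
      _ = _ := by
        rw [← ENNReal.ofReal_add (by norm_num) (by norm_num)]
        norm_num
  have hAge : ENNReal.ofReal (1 / 3) ≤ haar A := by
    rcases le_total c 1 with hc | hc
    · have h1 := D.measure_arc j (a := 7 / 12) (b := 11 / 12) (by norm_num) (by norm_num)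
      have e : (11 / 12 - 7 / 12 : ℝ) = 1 / 3 := by norm_num
      rw [e] at h1
      refine h1.trans (measure_mono_ae ?_)
      filter_upwards [hform] with p hp hmem
      have h2 := D.jump_up j p hmem
      have h3 : 0 ≤ (1 - c) * D.tj j := mul_nonneg (by linarith) (D.tj_pos j).le
      show 2 * (M : ℝ) < |u (D.fl (D.tj j) p) - u p|
      rw [hp]
      exact lt_of_lt_of_le (by linarith) (le_abs_self _)
    · have h1 := D.measure_arc j (a := 1 / 12) (b := 5 / 12) (by norm_num) (by norm_num)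
      have e : (5 / 12 - 1 / 12 : ℝ) = 1 / 3 := by norm_num
      rw [e] at h1
      refine h1.trans (measure_mono_ae ?_)
      filter_upwards [hform] with p hp hmem
      have h2 := D.jump_down j p hmem
      have h3 : (1 - c) * D.tj j ≤ 0 := mul_nonpos_of_nonpos_of_nonneg (by linarith) (D.tj_pos j).le
      show 2 * (M : ℝ) < |u (D.fl (D.tj j) p) - u p|
      rw [hp]
      exact lt_of_lt_of_le (by linarith) (neg_le_abs _)
  have h1 := hAge.trans hAle
  rw [ENNReal.ofReal_le_ofReal_iff (by norm_num)] at h1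
  norm_num at h1

end Data

end Pool.Agent.W740.Nil
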