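import Pool.Agent.W740.Nil.Fun

set_option autoImplicit false

open MeasureTheory Filter Topology Set
open scoped ContDiff

namespace Pool.Agent.W740.Nil

theorem exists_theta (ρ : ℕ → ℤ → ℤ → ℝ) (hρ : ∀ k p q, 0 < ρ k p q) :
    ∃ θ : ℝ, Irrational θ ∧ ∀ (k : ℕ) (η : ℝ), 0 < η → ∃ p q : ℤ, 1 ≤ q ∧
      |(q : ℝ) * θ - p| < ρ k p q ∧ |(q : ℝ) * θ - p| < η := by
  set W : ℕ × ℕ → Set ℝ := fun kn => ⋃ (p : ℤ) (q : ℤ) (_ : 1 ≤ q),
    {θ : ℝ | |(q : ℝ) * θ - p| < min (ρ kn.1 p q) (1 / ((kn.2 : ℝ) + 1))} with hW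
  have hWo : ∀ kn, IsOpen (W kn) := by
    intro kn
    refine isOpen_iUnion fun p => isOpen_iUnion fun q => isOpen_iUnion fun _ => ?_
    exact isOpen_lt (by fun_prop) continuous_const
  have hWd : ∀ kn, Dense (W kn) := by
    intro kn
    refine Rat.denseRange_cast.mono ?_
    rintro _ ⟨r, rfl⟩
    simp only [hW, mem_iUnion, mem_ofPred_eq]
    refine ⟨r.num, r.den, by exact_mod_cast r.den_pos, ?_⟩
    have : ((r.den : ℤ) : ℝ) * (r : ℝ) - r.num = 0 := by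
      have h1 : ((r.den : ℤ) : ℝ) ≠ 0 := by exact_mod_cast r.den_ne_zero
      have h2 : (r : ℝ) = (r.num : ℝ) / ((r.den : ℤ) : ℝ) := by
        exact_mod_cast (Rat.num_div_den r).symm
      rw [h2, mul_div_cancel₀ _ h1, sub_self]
    rw [this, abs_zero]
    exact lt_min (hρ _ _ _) (by positivity)
  have hd : Dense (⋂ kn, W kn) := dense_iInter_of_isOpen hWo hWd
  have hG : IsGδ (⋂ kn, W kn) := IsGδ.iInter_of_isOpen hWo
  have hd2 := hd.inter_of_Gδ hG IsGδ.setOfPred_irrational dense_irrational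
  obtain ⟨θ, hθ1, hθ2⟩ := hd2.nonempty
  refine ⟨θ, hθ2, fun k η hη => ?_⟩
  obtain ⟨n, hn⟩ := exists_nat_one_div_lt hη
  have h1 := mem_iInter.mp hθ1 (k, n)
  simp only [hW, mem_iUnion, mem_ofPred_eq] at h1
  obtain ⟨p, q, hq, h2⟩ := h1
  exact ⟨p, q, hq, h2.trans_le (min_le_left _ _), (h2.trans_le (min_le_right _ _)).trans hn⟩

/-- The data of the construction. -/
structure Data where
  θ : ℝ
  irr : Irrational θ
  p : ℕ → ℤ
  q : ℕ → ℤ
  hq : ∀ k, 1 ≤ q k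
  small : ∀ k i, i ≤ k → |(q k : ℝ) * θ - p k| * CV k i * (|(p k : ℝ)| + |(q k : ℝ)|) ^ i ≤
    (1 / 2) ^ (k + 2)
  rat : ∀ k, |(q (k + 1) : ℝ) * θ - p (k + 1)| * (CV (k + 1) 0 + 1) ≤
    (1 / 2) ^ (k + 1) * |(q k : ℝ) * θ - p k|

theorem exists_data : Nonempty Data := by
  set ρ : ℕ → ℤ → ℤ → ℝ := fun k p q => (1 / 2) ^ (k + 2) /
    (1 + ∑ i ∈ Finset.range (k + 1), CV k i * (|(p : ℝ)| + |(q : ℝ)|) ^ i) with hρdef
  have hs0 : ∀ k (p q : ℤ), 0 ≤ ∑ i ∈ Finset.range (k + 1), CV k i * (|(p : ℝ)| + |(q : ℝ)|) ^ i :=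
    fun k p q => Finset.sum_nonneg fun i _ => mul_nonneg (CV_nonneg _ _) (by positivity)
  have hρ : ∀ k p q, 0 < ρ k p q := by
    intro k p q
    have := hs0 k p q
    rw [hρdef]
    positivity
  obtain ⟨θ, hθ, h⟩ := exists_theta ρ hρ
  have h' : ∀ (k : ℕ) (η : ℝ), ∃ pq : ℤ × ℤ, 0 < η → 1 ≤ pq.2 ∧
      |(pq.2 : ℝ) * θ - pq.1| < ρ k pq.1 pq.2 ∧ |(pq.2 : ℝ) * θ - pq.1| < η := by
    intro k η
    by_cases hη : 0 < η
    · obtain ⟨p, q, h1⟩ := h k η hη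
      exact ⟨(p, q), fun _ => h1⟩
    · exact ⟨(0, 0), fun h => absurd h hη⟩
  choose P hP using h'
  set f : ℕ → ℤ × ℤ := fun n => Nat.rec (P 0 1)
    (fun k pq => P (k + 1) ((1 / 2) ^ (k + 1) * |(pq.2 : ℝ) * θ - pq.1| / (CV (k + 1) 0 + 1))) n
    with hf
  have hf1 : ∀ k, f (k + 1) = P (k + 1)
      ((1 / 2) ^ (k + 1) * |((f k).2 : ℝ) * θ - (f k).1| / (CV (k + 1) 0 + 1)) := fun k => rfl
  have hpos : ∀ k, 1 ≤ (f k).2 → 0 < |((f k).2 : ℝ) * θ - (f k).1| := by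
    intro k hk
    rw [abs_pos]
    intro h0
    have h1 : ((f k).2 : ℝ) ≠ 0 := by
      have : (f k).2 ≠ 0 := by omega
      exact_mod_cast this
    have h2 : θ = (((f k).1 / (f k).2 : ℚ) : ℝ) := by
      push_cast
      field_simp
      linarith
    exact hθ ⟨_, h2.symm⟩
  have main : ∀ k, 1 ≤ (f k).2 ∧ |((f k).2 : ℝ) * θ - (f k).1| < ρ k (f k).1 (f k).2 := by
    intro k
    induction k with
    | zero =>
      have := hP 0 1 one_pos
      exact ⟨this.1, this.2.1⟩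
    | succ k ih =>
      have h1 := hpos k ih.1
      have h2 : 0 < (1 / 2) ^ (k + 1) * |((f k).2 : ℝ) * θ - (f k).1| / (CV (k + 1) 0 + 1) := by
        have := CV_nonneg (k + 1) 0
        positivity
      have := hP (k + 1) _ h2
      rw [← hf1] at this
      exact ⟨this.1, this.2.1⟩
  refine ⟨⟨θ, hθ, fun k => (f k).1, fun k => (f k).2, fun k => (main k).1, ?_, ?_⟩⟩
  · intro k i hik
    have h1 := (main k).2
    have h2 := hs0 k (f k).1 (f k).2
    rw [hρdef] at h1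
    simp only at h1
    rw [lt_div_iff₀ (by positivity)] at h1
    have h3 : CV k i * (|((f k).1 : ℝ)| + |((f k).2 : ℝ)|) ^ i ≤
        ∑ i ∈ Finset.range (k + 1), CV k i * (|((f k).1 : ℝ)| + |((f k).2 : ℝ)|) ^ i :=
      Finset.single_le_sum (f := fun i => CV k i * (|((f k).1 : ℝ)| + |((f k).2 : ℝ)|) ^ i)
        (fun j _ => mul_nonneg (CV_nonneg _ _) (by positivity))
        (Finset.mem_range.mpr (by omega))
    rw [mul_assoc]
    refine le_trans ?_ h1.le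
    have := abs_nonneg (((f k).2 : ℝ) * θ - (f k).1)
    refine mul_le_mul_of_nonneg_left ?_ this
    linarith
  · intro k
    have h1 := hpos k (main k).1
    have hc := CV_nonneg (k + 1) 0
    have h2 : 0 < (1 / 2) ^ (k + 1) * |((f k).2 : ℝ) * θ - (f k).1| / (CV (k + 1) 0 + 1) := by
      positivity
    have := (hP (k + 1) _ h2).2.2
    rw [← hf1] at this
    rw [lt_div_iff₀ (by positivity)] at this
    exact this.le

end Pool.Agent.W740.Nil
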