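import Pool.Agent.W740.Nil.Defs

set_option autoImplicit false

open MeasureTheory Filter Topology Set
open scoped ContDiff

namespace Pool.Agent.W740.Nil

namespace Heis

/-- Coordinates. -/
def homeo : Heis ≃ₜ ℝ × ℝ × ℝ where
  toFun g := (g.x, g.y, g.z)
  invFun p := ⟨p.1, p.2.1, p.2.2⟩
  left_inv g := rfl
  right_inv p := rfl
  continuous_toFun := continuous_induced_dom
  continuous_invFun := by
    rw [continuous_induced_rng]
    exact continuous_id

theorem continuous_x : Continuous (fun g : Heis => g.x) := continuous_fst.comp homeo.continuous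
theorem continuous_y : Continuous (fun g : Heis => g.y) :=
  (continuous_fst.comp continuous_snd).comp homeo.continuous
theorem continuous_z : Continuous (fun g : Heis => g.z) :=
  (continuous_snd.comp continuous_snd).comp homeo.continuous

theorem continuous_mk {T : Type*} [TopologicalSpace T] {f g h : T → ℝ} (hf : Continuous f)
    (hg : Continuous g) (hh : Continuous h) : Continuous (fun t => (⟨f t, g t, h t⟩ : Heis)) :=
  homeo.symm.continuous.comp (hf.prodMk (hg.prodMk hh))

instance : T2Space Heis := homeo.isEmbedding.t2Space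
instance : LocallyCompactSpace Heis := homeo.isClosedEmbedding.locallyCompactSpace
instance : SecondCountableTopology Heis := homeo.isEmbedding.secondCountableTopology

instance : IsTopologicalGroup Heis where
  continuous_mul := by
    refine continuous_mk ?_ ?_ ?_
    · exact (continuous_x.comp continuous_fst).add (continuous_x.comp continuous_snd)
    · exact (continuous_y.comp continuous_fst).add (continuous_y.comp continuous_snd)
    · exact ((continuous_z.comp continuous_fst).add (continuous_z.comp continuous_snd)).add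
        ((continuous_x.comp continuous_fst).mul (continuous_y.comp continuous_snd))
  continuous_inv := by
    refine continuous_mk continuous_x.neg continuous_y.neg ?_
    exact continuous_z.neg.add (continuous_x.mul continuous_y)

end Heis

open Heis

theorem smul_def' (γ : lattice) (g : Heis) : γ • g = (γ : Heis) * g := rfl

/-- Lattice points from integers. -/
def lat (a b c : ℤ) : lattice := ⟨⟨a, b, c⟩, a, b, c, rfl⟩

theorem lat_surj (γ : lattice) : ∃ a b c : ℤ, γ = lat a b c := by
  obtain ⟨γ, a, b, c, rfl⟩ := γ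
  exact ⟨a, b, c, rfl⟩

instance : Countable lattice := by
  have : Function.Surjective (fun p : ℤ × ℤ × ℤ => lat p.1 p.2.1 p.2.2) := by
    intro γ
    obtain ⟨a, b, c, rfl⟩ := lat_surj γ
    exact ⟨(a, b, c), rfl⟩
  exact this.countable

instance : ContinuousConstSMul lattice Heis where
  continuous_const_smul γ := by
    show Continuous (fun g => (γ : Heis) * g)
    exact continuous_const.mul continuous_id

instance : ProperlyDiscontinuousSMul lattice Heis where
  finite_disjoint_inter_image := by
    intro K L hK hL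
    -- bounds for the coordinates
    have hbd : ∀ (S : Set Heis), IsCompact S → ∃ C : ℝ, ∀ g ∈ S, |g.x| ≤ C ∧ |g.y| ≤ C ∧ |g.z| ≤ C := by
      intro S hS
      obtain ⟨C1, h1⟩ := hS.exists_bound_of_continuousOn continuous_x.continuousOn
      obtain ⟨C2, h2⟩ := hS.exists_bound_of_continuousOn continuous_y.continuousOn
      obtain ⟨C3, h3⟩ := hS.exists_bound_of_continuousOn continuous_z.continuousOn
      refine ⟨max C1 (max C2 C3), fun g hg => ⟨(h1 g hg).trans (le_max_left _ _), ?_, ?_⟩⟩
      · exact (h2 g hg).trans ((le_max_left _ _).trans (le_max_right _ _))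
      · exact (h3 g hg).trans ((le_max_right _ _).trans (le_max_right _ _))
    obtain ⟨C, hC⟩ := hbd K hK
    obtain ⟨C', hC'⟩ := hbd L hL
    obtain ⟨N, hN⟩ := exists_nat_ge (C' + C + (C' + C) * C)
    obtain ⟨N', hN'⟩ := exists_nat_ge (C' + C)
    have hfin : (Set.Icc (-(N' : ℤ)) N' ×ˢ Set.Icc (-(N' : ℤ)) N' ×ˢ
        Set.Icc (-(N : ℤ)) N : Set (ℤ × ℤ × ℤ)).Finite :=
      (Set.finite_Icc _ _).prod ((Set.finite_Icc _ _).prod (Set.finite_Icc _ _))
    refine (hfin.image (fun p => lat p.1 p.2.1 p.2.2)).subset ?_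
    intro γ hγ
    obtain ⟨h, hhK, hhL⟩ := hγ
    obtain ⟨g, hg, rfl⟩ := hhK
    obtain ⟨a, b, c, rfl⟩ := lat_surj γ
    have k1 := hC g hg
    have k2 := hC' _ hhL
    have e1 : (lat a b c • g).x = a + g.x := rfl
    have e2 : (lat a b c • g).y = b + g.y := rfl
    have e3 : (lat a b c • g).z = c + g.z + a * g.y := rfl
    rw [e1, e2, e3] at k2
    obtain ⟨k1x, k1y, k1z⟩ := k1
    obtain ⟨k2x, k2y, k2z⟩ := k2
    have hC0 : 0 ≤ C := (abs_nonneg _).trans k1x
    have hC0' : 0 ≤ C' := (abs_nonneg _).trans k2x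
    have ha : |(a : ℝ)| ≤ C' + C := by
      have : (a : ℝ) = (a + g.x) - g.x := by ring
      rw [this]
      exact (abs_sub _ _).trans (add_le_add k2x k1x)
    have hb : |(b : ℝ)| ≤ C' + C := by
      have : (b : ℝ) = (b + g.y) - g.y := by ring
      rw [this]
      exact (abs_sub _ _).trans (add_le_add k2y k1y)
    have hc : |(c : ℝ)| ≤ C' + C + (C' + C) * C := by
      have : (c : ℝ) = (c + g.z + a * g.y) - g.z - a * g.y := by ring
      rw [this]
      refine (abs_sub _ _).trans ?_
      refine add_le_add ((abs_sub _ _).trans (add_le_add k2z k1z)) ?_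
      rw [abs_mul]
      exact mul_le_mul ha k1y (abs_nonneg _) (by positivity)
    have hca : ∀ (n : ℤ) (N : ℕ), |(n : ℝ)| ≤ N → n ∈ Set.Icc (-(N : ℤ)) N := by
      intro n N h
      rw [abs_le] at h
      constructor
      · exact_mod_cast h.1
      · exact_mod_cast h.2
    exact ⟨(a, b, c), ⟨hca _ _ (ha.trans hN'), hca _ _ (hb.trans hN'), hca _ _ (hc.trans hN)⟩, rfl⟩

instance : T2Space Nilmanifold :=
  inferInstanceAs (T2Space (Quotient (MulAction.orbitRel lattice Heis)))

instance : SecondCountableTopology Nilmanifold :=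
  ContinuousConstSMul.secondCountableTopology (Γ := lattice) (T := Heis)

theorem toNil_surj : Function.Surjective toNil := Quotient.mk_surjective

theorem continuous_toNil : Continuous toNil := continuous_quot_mk

theorem isOpenMap_toNil : IsOpenMap toNil :=
  isOpenMap_quotient_mk'_mul (Γ := lattice) (T := Heis)

theorem isOpenQuotientMap_toNil : IsOpenQuotientMap toNil :=
  ⟨toNil_surj, continuous_toNil, isOpenMap_toNil⟩

theorem toNil_eq_iff (g h : Heis) : toNil g = toNil h ↔ ∃ γ : lattice, (γ : Heis) * h = g :=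
  Quotient.eq (r := MulAction.orbitRel lattice Heis)

theorem toNil_lat (a b c : ℤ) (g : Heis) : toNil (⟨a, b, c⟩ * g) = toNil g := by
  rw [toNil_eq_iff]
  exact ⟨lat a b c, rfl⟩

@[simp] theorem rtr_toNil (h g : Heis) : rtr h (toNil g) = toNil (g * h) := rfl

theorem rtr_rtr (h h' : Heis) (p : Nilmanifold) : rtr h (rtr h' p) = rtr (h' * h) p := by
  obtain ⟨g, rfl⟩ := toNil_surj p
  simp [mul_assoc]

@[simp] theorem rtr_one (p : Nilmanifold) : rtr 1 p = p := by
  obtain ⟨g, rfl⟩ := toNil_surj p
  simp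

theorem continuous_rtr_prod : Continuous (fun q : Nilmanifold × Heis => rtr q.2 q.1) := by
  have h1 : IsOpenQuotientMap (Prod.map toNil (id : Heis → Heis)) :=
    isOpenQuotientMap_toNil.prodMap IsOpenQuotientMap.id
  rw [h1.isQuotientMap.continuous_iff]
  show Continuous (fun q : Heis × Heis => toNil (q.1 * q.2))
  exact continuous_toNil.comp (continuous_fst.mul continuous_snd)

theorem continuous_rtr (h : Heis) : Continuous (rtr h) :=
  continuous_rtr_prod.comp (continuous_id.prodMk continuous_const)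

/-- every point has a representative in the half open unit cube -/
theorem exists_rep (g : Heis) : ∃ a b c : ℤ,
    (lat a b c • g).x ∈ Ioc (0 : ℝ) 1 ∧ (lat a b c • g).y ∈ Ioc (0 : ℝ) 1 ∧
    (lat a b c • g).z ∈ Ioc (0 : ℝ) 1 := by
  have key : ∀ t : ℝ, ∃ n : ℤ, (n : ℝ) + t ∈ Ioc (0 : ℝ) 1 := by
    intro t
    refine ⟨1 - ⌈t⌉, ?_, ?_⟩
    · have := Int.ceil_lt_add_one t
      push_cast
      linarith
    · have := Int.le_ceil t
      push_cast
      linarith
  obtain ⟨a, ha⟩ := key g.x
  obtain ⟨b, hb⟩ := key g.y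
  obtain ⟨c, hc⟩ := key (g.z + a * g.y)
  refine ⟨a, b, c, ha, hb, ?_⟩
  have : (lat a b c • g).z = c + (g.z + a * g.y) := by
    show c + g.z + a * g.y = _
    ring
  rw [this]
  exact hc

instance : CompactSpace Nilmanifold := by
  have hK : IsCompact (homeo.symm '' (Icc (0 : ℝ) 1 ×ˢ Icc (0 : ℝ) 1 ×ˢ Icc (0 : ℝ) 1)) :=
    (isCompact_Icc.prod (isCompact_Icc.prod isCompact_Icc)).image homeo.symm.continuous
  have h2 : toNil '' (homeo.symm '' (Icc (0 : ℝ) 1 ×ˢ Icc (0 : ℝ) 1 ×ˢ Icc (0 : ℝ) 1)) = univ := by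
    rw [eq_univ_iff_forall]
    intro p
    obtain ⟨g, rfl⟩ := toNil_surj p
    obtain ⟨a, b, c, h1, h2, h3⟩ := exists_rep g
    refine ⟨lat a b c • g, ⟨(_, _, _), ⟨Ioc_subset_Icc_self h1, Ioc_subset_Icc_self h2,
      Ioc_subset_Icc_self h3⟩, rfl⟩, toNil_lat a b c g⟩
  rw [← isCompact_univ_iff, ← h2]
  exact hK.image continuous_toNil

instance : TopologicalSpace.MetrizableSpace Nilmanifold :=
  TopologicalSpace.metrizableSpace_of_t3_secondCountable _

theorem toNil_mk_add_int (x y z : ℝ) (a b c : ℤ) :
    toNil ⟨x + a, y + b, z + c + a * y⟩ = toNil ⟨x, y, z⟩ := by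
  rw [← toNil_lat a b c ⟨x, y, z⟩]
  congr 1
  ext <;> simp <;> ring

end Pool.Agent.W740.Nil
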