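import Pool.Agent.W740.Nil.Base

set_option autoImplicit false

open MeasureTheory Filter Topology Set
open scoped ContDiff

namespace Pool.Agent.W740.Nil

open Heis

/-- central element -/
def cen (c : ℝ) : Heis := ⟨0, 0, c⟩

theorem cen_mul_cen (a b : ℝ) : cen a * cen b = cen (a + b) := by
  ext <;> simp [cen]

theorem cen_comm (a : ℝ) (g : Heis) : cen a * g = g * cen a := by
  ext <;> simp [cen, add_comm]

theorem rtr_cen_int (n : ℤ) (p : Nilmanifold) : rtr (cen n) p = p := by
  obtain ⟨g, rfl⟩ := toNil_surj p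
  rw [rtr_toNil, ← cen_comm]
  have : cen (n : ℝ) = ⟨((0 : ℤ) : ℝ), ((0 : ℤ) : ℝ), ((n : ℤ) : ℝ)⟩ := by
    simp [cen]
  rw [this, toNil_lat]

theorem continuous_cen : Continuous cen :=
  continuous_mk continuous_const continuous_const continuous_id

theorem mp_nilflow (X : ℝ × ℝ × ℝ) (t : ℝ) : MeasurePreserving (nilflow X t) haar haar := mp_rtr _

/-- the fibres of the projection are the central orbits -/
theorem prj_fibre {p q : Nilmanifold} (h : prj p = prj q) : ∃ c : ℝ, q = rtr (cen c) p := by
  obtain ⟨g, rfl⟩ := toNil_surj p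
  obtain ⟨h', rfl⟩ := toNil_surj q
  rw [prj_toNil, prj_toNil, Prod.mk.injEq] at h
  obtain ⟨h1, h2⟩ := h
  rw [QuotientAddGroup.eq] at h1 h2
  rw [AddSubgroup.mem_zmultiples_iff] at h1 h2
  obtain ⟨n, hn⟩ := h1
  obtain ⟨m, hm⟩ := h2
  simp only [zsmul_eq_mul, mul_one] at hn hm
  have e := toNil_lat (-n) (-m) 0 h'
  refine ⟨h'.z - n * h'.y - g.z, ?_⟩
  rw [← e, rtr_toNil]
  congr 1
  ext
  · simp [cen]
    linarith
  · simp [cen]
    linarith
  · simp [cen]
    ring

theorem isQuotientMap_prj : IsQuotientMap (⟨prj, continuous_prj⟩ : C(Nilmanifold, T2)) :=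
  continuous_prj.isClosedMap.isQuotientMap continuous_prj prj_surj

variable {E : Type*} [NormedAddCommGroup E] [NormedSpace ℝ E]

/-- Central invariant continuous functions have the same integral for all flow invariant
probability measures. -/
theorem integral_central {θ : ℝ} (hθ : Irrational θ) (ν : Measure Nilmanifold)
    [IsProbabilityMeasure ν] (hν : ∀ t, MeasurePreserving (nilflow (1, θ, 0) t) ν ν)
    (K : Nilmanifold → E) (hK : Continuous K) (hc : ∀ c p, K (rtr (cen c) p) = K p) :
    ∫ p, K p ∂ν = ∫ p, K p ∂haar := by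
  have hf : Function.FactorsThrough (⟨K, hK⟩ : C(Nilmanifold, E))
      (⟨prj, continuous_prj⟩ : C(Nilmanifold, T2)) := by
    intro p q h
    obtain ⟨c, rfl⟩ := prj_fibre h
    exact (hc c p).symm
  have h2 := isQuotientMap_prj.lift_comp (⟨K, hK⟩ : C(Nilmanifold, E)) hf
  set G := isQuotientMap_prj.lift (⟨K, hK⟩ : C(Nilmanifold, E)) hf
  have h3 : ∀ p, K p = G (prj p) := fun p => by
    have := DFunLike.congr_fun h2 p
    exact this.symm
  have key : ∀ ν : Measure Nilmanifold, IsProbabilityMeasure ν →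
      (∀ t, MeasurePreserving (nilflow (1, θ, 0) t) ν ν) →
      ∫ p, K p ∂ν = ∫ q, G q ∂(volume : Measure T2) := by
    intro ν _ hν
    rw [← map_prj hθ ν hν, integral_map continuous_prj.measurable.aemeasurable]
    · exact integral_congr_ae (Eventually.of_forall h3)
    · rw [map_prj hθ ν hν]
      exact G.continuous.aestronglyMeasurable
  rw [key ν inferInstance hν, key haar inferInstance (mp_nilflow _)]

end Pool.Agent.W740.Nil
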