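import Pool.Agent.W740.Nil.UE1

set_option autoImplicit false

open MeasureTheory Filter Topology Set
open scoped ContDiff ComplexConjugate

namespace Pool.Agent.W740.Nil

open Heis

/-- the character of the circle -/
noncomputable def ee (t : ℝ) : ℂ := Complex.exp (2 * Real.pi * Complex.I * t)

theorem ee_add (a b : ℝ) : ee (a + b) = ee a * ee b := by
  unfold ee
  rw [← Complex.exp_add]
  congr 1
  push_cast
  ring

theorem norm_ee (a : ℝ) : ‖ee a‖ = 1 := by
  unfold ee
  rw [show (2 * Real.pi * Complex.I * a : ℂ) = ((2 * Real.pi * a : ℝ) : ℂ) * Complex.I by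
    push_cast; ring]
  exact Complex.norm_exp_ofReal_mul_I _

theorem continuous_ee : Continuous ee := by
  unfold ee
  fun_prop

theorem ee_int (n : ℤ) : ee n = 1 := by
  unfold ee
  rw [Complex.exp_eq_one_iff]
  exact ⟨n, by push_cast; ring⟩

theorem ee_half : ee (1 / 2) = -1 := by
  unfold ee
  rw [show (2 * Real.pi * Complex.I * ((1 / 2 : ℝ) : ℂ) : ℂ) = Real.pi * Complex.I by
    push_cast; ring]
  exact Complex.exp_pi_mul_I

theorem ee_zero : ee 0 = 1 := by
  have := ee_int 0
  simpa using this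

theorem conj_ee (a : ℝ) : conj (ee a) = ee (-a) := by
  unfold ee
  rw [← Complex.exp_conj]
  congr 1
  rw [show (2 * Real.pi * Complex.I * a : ℂ) = ((2 * Real.pi * a : ℝ) : ℂ) * Complex.I by
    push_cast; ring, map_mul, Complex.conj_ofReal, Complex.conj_I]
  push_cast
  ring

/-- the element `(0, s, 0)` -/
def yel (s : ℝ) : Heis := ⟨0, s, 0⟩

theorem continuous_yel : Continuous yel :=
  continuous_mk continuous_const continuous_id continuous_const

theorem comm_yel (θ s a : ℝ) :
    expX (1, θ, 0) a * yel s = (yel s * expX (1, θ, 0) a) * cen (a * s) := by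
  ext <;> simp [expX, yel, cen] <;> ring

/-- `F` has central frequency `k`. -/
def Freq (k : ℤ) (F : Nilmanifold → ℂ) : Prop := ∀ (c : ℝ) p, F (rtr (cen c) p) = ee (k * c) * F p

theorem shift_small (F : Nilmanifold → ℂ) (hF : Continuous F) {ε : ℝ} (hε : 0 < ε) :
    ∃ δ > 0, ∀ s : ℝ, |s| < δ → ∀ p, ‖F (rtr (yel s) p) - F p‖ < ε := by
  by_contra hcon
  push Not at hcon
  have h1 : ∀ n : ℕ, ∃ s : ℝ, |s| < 1 / ((n : ℝ) + 1) ∧ ∃ p, ε ≤ ‖F (rtr (yel s) p) - F p‖ :=
    fun n => hcon _ (by positivity)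
  choose s hs p hp using h1
  obtain ⟨a, φ, hφ, ha⟩ := CompactSpace.tendsto_subseq p
  have hs0 : Tendsto (fun n => s (φ n)) atTop (𝓝 0) := by
    have : Tendsto s atTop (𝓝 0) := by
      refine squeeze_zero_norm (fun n => (hs n).le) tendsto_one_div_add_atTop_nhds_zero_nat
    exact this.comp hφ.tendsto_atTop
  have hc : Continuous (fun q : Nilmanifold × ℝ => ‖F (rtr (yel q.2) q.1) - F q.1‖) := by
    have : Continuous (fun q : Nilmanifold × ℝ => rtr (yel q.2) q.1) :=
      continuous_rtr_prod.comp (continuous_fst.prodMk (continuous_yel.comp continuous_snd))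
    exact ((hF.comp this).sub (hF.comp continuous_fst)).norm
  have h2 : Tendsto (fun n => ‖F (rtr (yel (s (φ n))) (p (φ n))) - F (p (φ n))‖) atTop
      (𝓝 ‖F (rtr (yel 0) a) - F a‖) := by
    have := (hc.tendsto (a, 0)).comp (ha.prodMk_nhds hs0)
    exact this
  have e : yel 0 = 1 := rfl
  rw [e, rtr_one, sub_self, norm_zero] at h2
  have := ge_of_tendsto h2 (Eventually.of_forall fun n => hp (φ n))
  linarith

theorem exists_bound (F : Nilmanifold → ℂ) (hF : Continuous F) :
    ∃ B : ℝ, 0 < B ∧ ∀ p, ‖F p‖ ≤ B := by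
  obtain ⟨B, hB⟩ := isCompact_univ.exists_bound_of_continuousOn (f := F) hF.continuousOn
  exact ⟨max B 1, by positivity, fun p => (hB p (mem_univ _)).trans (le_max_left _ _)⟩

theorem integrable_cont {F : Nilmanifold → ℂ} (hF : Continuous F) (ν : Measure Nilmanifold)
    [IsFiniteMeasure ν] : Integrable F ν := by
  obtain ⟨B, _, hB⟩ := exists_bound F hF
  exact Integrable.of_bound hF.aestronglyMeasurable B (Eventually.of_forall hB)

theorem continuous_nilflow (X : ℝ × ℝ × ℝ) (t : ℝ) : Continuous (nilflow X t) := continuous_rtr _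

theorem nilflow_cen (X : ℝ × ℝ × ℝ) (t c : ℝ) (p : Nilmanifold) :
    nilflow X t (rtr (cen c) p) = rtr (cen c) (nilflow X t p) := by
  unfold nilflow
  rw [rtr_rtr, rtr_rtr, cen_comm]

/-- Decay of correlations. -/
theorem corr {θ : ℝ} {k : ℤ} (hk : k ≠ 0) (F : Nilmanifold → ℂ) (hF : Continuous F)
    (hFk : Freq k F) {ε : ℝ} (hε : 0 < ε) : ∃ R : ℝ, ∀ a b : ℝ, R ≤ |a - b| →
    ‖∫ p, F (nilflow (1, θ, 0) a p) * conj (F (nilflow (1, θ, 0) b p)) ∂haar‖ ≤ ε := by
  obtain ⟨B, hB0, hB⟩ := exists_bound F hF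
  obtain ⟨δ, hδ, hs⟩ := shift_small F hF (ε := ε / B) (by positivity)
  have hk' : (0 : ℝ) < |(k : ℝ)| := by
    rw [abs_pos]
    exact_mod_cast hk
  refine ⟨1 / (2 * |(k : ℝ)|) / δ + 1, fun a b hab => ?_⟩
  have hab0 : 0 < |a - b| := by
    have : 0 ≤ 1 / (2 * |(k : ℝ)|) / δ := by positivity
    linarith
  have hab1 : a - b ≠ 0 := abs_pos.mp hab0
  have hkr : (k : ℝ) ≠ 0 := by exact_mod_cast hk
  set s : ℝ := 1 / (2 * k * (a - b)) with hsdef
  have hsδ : |s| < δ := by
    rw [hsdef, abs_div, abs_one, abs_mul, abs_mul, abs_two]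
    rw [div_lt_iff₀ (by positivity)]
    have h1 : 1 / (2 * |(k : ℝ)|) < δ * |a - b| := by
      have : 1 / (2 * |(k : ℝ)|) / δ < |a - b| := by linarith
      rw [div_lt_iff₀ hδ] at this
      linarith
    rw [div_lt_iff₀ (by positivity)] at h1
    nlinarith
  set φ := nilflow (1, θ, 0) with hφ
  set c := ∫ p, F (φ a p) * conj (F (φ b p)) ∂haar with hc
  -- the shifted integral
  have h1 : ∀ (a : ℝ) p, F (φ a (rtr (yel s) p)) = ee (-(k * (a * s))) * F (rtr (yel s) (φ a p)) := by
    intro a p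
    have e1 : rtr (yel s) (φ a p) = rtr (cen (a * s)) (φ a (rtr (yel s) p)) := by
      rw [hφ]
      unfold nilflow
      rw [rtr_rtr, comm_yel, ← rtr_rtr, ← rtr_rtr]
    rw [e1, hFk, ← mul_assoc, ← ee_add]
    simp [ee_zero]
  have h2 : c = -∫ p, F (rtr (yel s) (φ a p)) * conj (F (rtr (yel s) (φ b p))) ∂haar := by
    have e1 : c = ∫ p, F (φ a (rtr (yel s) p)) * conj (F (φ b (rtr (yel s) p))) ∂haar := by
      rw [hc]
      conv_lhs => rw [← (mp_rtr (yel s)).map_eq]
      rw [integral_map (mp_rtr (yel s)).measurable.aemeasurable]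
      refine Continuous.aestronglyMeasurable ?_
      exact (hF.comp (continuous_nilflow _ _)).mul
        (Complex.continuous_conj.comp (hF.comp (continuous_nilflow _ _)))
    rw [e1, ← integral_neg]
    congr 1
    funext p
    rw [h1 a p, h1 b p, map_mul, conj_ee]
    have e2 : ee (-(k * (a * s))) * ee (- -(k * (b * s))) = -1 := by
      rw [← ee_add]
      have : -(k * (a * s)) + - -(k * (b * s)) = -(1 / 2 : ℝ) := by
        rw [hsdef]
        field_simp
        ring
      rw [this, ← conj_ee, ee_half]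
      simp
    calc ee (-(k * (a * s))) * F (rtr (yel s) (φ a p)) *
          (ee (- -(k * (b * s))) * conj (F (rtr (yel s) (φ b p)))) =
        (ee (-(k * (a * s))) * ee (- -(k * (b * s)))) * (F (rtr (yel s) (φ a p)) *
          conj (F (rtr (yel s) (φ b p)))) := by ring
      _ = _ := by rw [e2]; ring
  have hcV : ∀ a, Continuous (fun p => F (rtr (yel s) (φ a p))) := fun a =>
    hF.comp ((continuous_rtr _).comp (continuous_nilflow _ _))
  have hcF : ∀ a, Continuous (fun p => F (φ a p)) := fun a => hF.comp (continuous_nilflow _ _)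
  have h3 : 2 * c = ∫ p, ((F (φ a p) * conj (F (φ b p))) -
      F (rtr (yel s) (φ a p)) * conj (F (rtr (yel s) (φ b p)))) ∂haar := by
    rw [integral_sub]
    · rw [← hc]
      linear_combination h2
    · exact integrable_cont ((hcF a).mul (Complex.continuous_conj.comp (hcF b))) _
    · exact integrable_cont ((hcV a).mul (Complex.continuous_conj.comp (hcV b))) _
  have h4 : ‖2 * c‖ ≤ 2 * ε := by
    rw [h3]
    refine (norm_integral_le_of_norm_le_const (C := 2 * ε) (Eventually.of_forall fun p => ?_)).trans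
      (by simp)
    have e3 : F (φ a p) * conj (F (φ b p)) - F (rtr (yel s) (φ a p)) *
        conj (F (rtr (yel s) (φ b p))) =
        -((F (rtr (yel s) (φ a p)) - F (φ a p)) * conj (F (φ b p))) -
        F (rtr (yel s) (φ a p)) * conj (F (rtr (yel s) (φ b p)) - F (φ b p)) := by
      rw [map_sub]
      ring
    rw [e3]
    refine (norm_sub_le _ _).trans ?_
    rw [norm_neg, norm_mul, norm_mul, RCLike.norm_conj, RCLike.norm_conj]
    have k1 : ‖F (rtr (yel s) (φ a p)) - F (φ a p)‖ ≤ ε / B := (hs s hsδ _).le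
    have k2 : ‖F (rtr (yel s) (φ b p)) - F (φ b p)‖ ≤ ε / B := (hs s hsδ _).le
    have k3 := hB (φ b p)
    have k4 := hB (rtr (yel s) (φ a p))
    calc _ ≤ ε / B * B + B * (ε / B) := by gcongr
      _ = 2 * ε := by field_simp; ring
  rw [norm_mul] at h4
  simp at h4
  exact h4

end Pool.Agent.W740.Nil
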