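import Pool.Agent.W740.Nil.UE2

set_option autoImplicit false

open MeasureTheory Filter Topology Set
open scoped ContDiff ComplexConjugate

namespace Pool.Agent.W740.Nil

open Heis

theorem sq_integral_norm_le (ν : Measure Nilmanifold) [IsProbabilityMeasure ν]
    (G : Nilmanifold → ℂ) (hG : Continuous G) :
    ‖∫ p, G p ∂ν‖ ^ 2 ≤ ‖∫ p, G p * conj (G p) ∂ν‖ := by
  set c : ℝ := ∫ p, ‖G p‖ ∂ν with hc
  have hGi : Integrable (fun p => ‖G p‖) ν := (integrable_cont hG ν).norm
  have hG2 : Integrable (fun p => ‖G p‖ ^ 2) ν := by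
    have := (integrable_cont (F := fun p => G p * conj (G p))
      (hG.mul (Complex.continuous_conj.comp hG)) ν).norm
    simpa [norm_mul, sq] using this
  have h0 : 0 ≤ ∫ p, (‖G p‖ - c) ^ 2 ∂ν := integral_nonneg fun p => sq_nonneg _
  have h1 : ∫ p, (‖G p‖ - c) ^ 2 ∂ν = ∫ p, ‖G p‖ ^ 2 ∂ν - c ^ 2 := by
    have e : ∀ p, (‖G p‖ - c) ^ 2 = ‖G p‖ ^ 2 - 2 * c * ‖G p‖ + c ^ 2 := fun p => by ring
    simp only [e]
    rw [integral_add, integral_sub, integral_const_mul, ← hc]
    · simp
      ring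
    · exact hG2
    · exact hGi.const_mul _
    · exact hG2.sub (hGi.const_mul _)
    · exact integrable_const _
  have h2 : ‖∫ p, G p ∂ν‖ ≤ c := norm_integral_le_integral_norm _
  have h3 : ∫ p, ‖G p‖ ^ 2 ∂ν = ‖∫ p, G p * conj (G p) ∂ν‖ := by
    have e : ∀ p, G p * conj (G p) = ((‖G p‖ ^ 2 : ℝ) : ℂ) := fun p => by
      rw [Complex.mul_conj, Complex.normSq_eq_norm_sq]
    simp only [e]
    rw [integral_complex_ofReal, Complex.norm_real, Real.norm_eq_abs, abs_of_nonneg]
    exact integral_nonneg fun p => sq_nonneg _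
  rw [← h3]
  have h4 : ‖∫ p, G p ∂ν‖ ^ 2 ≤ c ^ 2 := by
    gcongr
  linarith

theorem integral_freq_zero {θ : ℝ} (hθ : Irrational θ) (ν : Measure Nilmanifold)
    [IsProbabilityMeasure ν] (hν : ∀ t, MeasurePreserving (nilflow (1, θ, 0) t) ν ν)
    {k : ℤ} (hk : k ≠ 0) (F : Nilmanifold → ℂ) (hF : Continuous F) (hFk : Freq k F) :
    ∫ p, F p ∂ν = 0 := by
  obtain ⟨B, hB0, hB⟩ := exists_bound F hF
  set I := ∫ p, F p ∂ν with hI
  suffices h : ∀ ε > 0, ‖I‖ ^ 2 ≤ ε by
    have h1 : ‖I‖ ^ 2 ≤ 0 := le_of_forall_pos_le_add fun ε hε => by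
      simpa using h ε hε
    have h2 : ‖I‖ = 0 := by
      have := sq_nonneg ‖I‖
      nlinarith [norm_nonneg I]
    exact norm_eq_zero.mp h2
  intro ε hε
  obtain ⟨R, hR⟩ := corr (θ := θ) hk F hF hFk (ε := ε / 2) (by positivity)
  obtain ⟨N, hN⟩ := exists_nat_gt (B ^ 2 / (ε / 2))
  have hN0 : (0 : ℝ) < N := lt_trans (by positivity) hN
  set m := max R 1 with hm
  have hm1 : 1 ≤ m := le_max_right _ _
  have hmR : R ≤ m := le_max_left _ _
  set φ := nilflow (1, θ, 0) with hφ
  set G : Nilmanifold → ℂ := fun p => ∑ i ∈ Finset.range N, F (φ (i * m) p) with hG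
  have hFc : ∀ t, Continuous (fun p => F (φ t p)) := fun t => hF.comp (continuous_nilflow _ _)
  have hGc : Continuous G := continuous_finsetSum _ fun i _ => hFc _
  have h1 : ∫ p, G p ∂ν = N * I := by
    rw [hG, integral_finsetSum _ fun i _ => integrable_cont (hFc _) ν]
    have e : ∀ t, ∫ p, F (φ t p) ∂ν = I := by
      intro t
      rw [hI]
      conv_rhs => rw [← (hν t).map_eq]
      rw [integral_map (hν t).measurable.aemeasurable hF.aestronglyMeasurable]
    simp [e]
  have h2 : ∀ i ∈ Finset.range N, ∀ j ∈ Finset.range N,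
      ‖∫ p, F (φ (i * m) p) * conj (F (φ (j * m) p)) ∂ν‖ ≤ (if i = j then B ^ 2 else 0) + ε / 2 := by
    intro i _ j _
    by_cases hij : i = j
    · subst hij
      rw [if_pos rfl]
      refine (norm_integral_le_of_norm_le_const (C := B ^ 2) (Eventually.of_forall fun p => ?_)).trans ?_
      · rw [norm_mul, RCLike.norm_conj, sq]
        exact mul_le_mul (hB _) (hB _) (norm_nonneg _) hB0.le
      · simp
        positivity
    · rw [if_neg hij, zero_add]
      rw [integral_central hθ ν hν]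
      · refine hR _ _ ?_
        rw [← sub_mul, abs_mul, abs_of_pos (by linarith : 0 < m)]
        have : (1 : ℝ) ≤ |(i : ℝ) - j| := by
          have h : (1 : ℤ) ≤ |(i : ℤ) - j| := by
            apply Int.one_le_abs
            omega
          exact_mod_cast h
        nlinarith
      · exact (hFc _).mul (Complex.continuous_conj.comp (hFc _))
      · intro c p
        rw [hφ, nilflow_cen, nilflow_cen, hFk, hFk, map_mul]
        have : ee (k * c) * conj (ee (k * c)) = 1 := by
          rw [conj_ee, ← ee_add]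
          simp [ee_zero]
        calc _ = (ee (k * c) * conj (ee (k * c))) * (F (nilflow (1, θ, 0) (i * m) p) *
            conj (F (nilflow (1, θ, 0) (j * m) p))) := by ring
          _ = _ := by rw [this, one_mul]
  have h3 : ‖∫ p, G p * conj (G p) ∂ν‖ ≤ N * B ^ 2 + N * (N * (ε / 2)) := by
    have e : ∀ p, G p * conj (G p) = ∑ i ∈ Finset.range N, ∑ j ∈ Finset.range N,
        F (φ (i * m) p) * conj (F (φ (j * m) p)) := by
      intro p
      rw [hG, map_sum, Finset.sum_mul_sum]
    simp only [e]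
    rw [integral_finsetSum]
    swap
    · intro i _
      exact integrable_cont (continuous_finsetSum _ fun j _ =>
        (hFc _).mul (Complex.continuous_conj.comp (hFc _))) ν
    refine (norm_sum_le _ _).trans ?_
    have h4 : ∀ i ∈ Finset.range N, ‖∫ p, ∑ j ∈ Finset.range N,
        F (φ (i * m) p) * conj (F (φ (j * m) p)) ∂ν‖ ≤ B ^ 2 + N * (ε / 2) := by
      intro i hi
      rw [integral_finsetSum]
      swap
      · intro j _
        exact integrable_cont ((hFc _).mul (Complex.continuous_conj.comp (hFc _))) ν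
      refine (norm_sum_le _ _).trans ?_
      refine (Finset.sum_le_sum (h2 i hi)).trans ?_
      rw [Finset.sum_add_distrib, Finset.sum_ite_eq, if_pos hi]
      simp
    refine (Finset.sum_le_sum h4).trans ?_
    rw [Finset.sum_const, Finset.card_range, nsmul_eq_mul]
    apply le_of_eq
    ring
  have h5 := sq_integral_norm_le ν G hGc
  rw [h1, norm_mul] at h5
  simp only [Complex.norm_natCast] at h5
  have h6 : (N : ℝ) ^ 2 * ‖I‖ ^ 2 ≤ N * B ^ 2 + N * (N * (ε / 2)) := by
    calc _ = (N * ‖I‖) ^ 2 := by ring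
      _ ≤ _ := h5.trans h3
  have h7 : B ^ 2 ≤ N * (ε / 2) := by
    rw [div_lt_iff₀ (by positivity)] at hN
    exact hN.le
  have h8 : (N : ℝ) ^ 2 * ‖I‖ ^ 2 ≤ (N : ℝ) ^ 2 * ε := by
    nlinarith
  exact le_of_mul_le_mul_left h8 (by positivity)

end Pool.Agent.W740.Nil
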